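import Pool.Agent.Lib_MP_9e7d46_os.Cover
import Pool.Agent.Lib_MP_9e7d46_co.Final

/-!
# Orientations from a class `N` and a family of sides; corollaries for acyclic digraphs
-/

set_option autoImplicit false
set_option linter.unusedSectionVars false

namespace OS9e
open Finset Classical Pool.Agent.DJ9e

variable {V A : Type} [Fintype V] [Fintype A]

/-- the general theorem, for a pairing which is good for the class `N` -/
theorem gen {k : ℕ} (hk : 3 ≤ k) (s t : A → V) (N : Set V)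
    (hd : ∀ U : Set V, U.Nonempty → Uᶜ.Nonempty → NoIn s t U → 2 * k ≤ dd s t U)
    (hN : ∀ U : Set V, NSep N U → 2 * k ≤ dd s t U)
    {ι : Type} [Fintype ι] (S : ι → Set V) (typ : ι → Bool) (B : ι → Set V)
    (hS2 : ∀ i, typ i = true → NoOut s t (S i)) (hS3 : ∀ i, typ i = false → NoIn s t (S i))
    (hBS : ∀ i, B i ⊆ S i)
    (huniq : ∀ v, Odd (dd s t {v}) → ∀ i j, v ∈ B i → v ∈ B j → i = j)
    (hher : ∀ i, ∀ Z : Set V, Z.Nonempty → Z ⊆ S i → (typ i = true → NoOut s t Z) →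
      (typ i = false → NoIn s t Z) →
      2 * k + ({v | v ∈ Z ∧ (Odd (dd s t {v}) ∧ v ∉ B i)} : Set V).ncard ≤ dd s t Z)
    (hcov : ∀ U : Set V, U.Nonempty → Uᶜ.Nonempty → NoIn s t U →
      NSep N U ∨ (∃ i, typ i = false ∧ U ⊆ S i) ∨
      (∃ i, typ i = true ∧ Uᶜ ⊆ S i) ∨
      2 * k + ({v | v ∈ U ∧ Odd (dd s t {v})} : Set V).ncard ≤ dd s t U ∨
      2 * k + ({v | v ∉ U ∧ Odd (dd s t {v})} : Set V).ncard ≤ dd s t U) :
    ∃ O : A → Bool, ∀ U : Set V, U.Nonempty → Uᶜ.Nonempty → Sh s t U → k ≤ inn s t O U := by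
  have hSh : ∀ U : Set V, U.Nonempty → Uᶜ.Nonempty → Sh s t U → 2 * k ≤ dd s t U := by
    intro U hU hUc hS
    rcases hS with hS | hS
    · exact hd U hU hUc hS
    · rw [← dd_compl]
      exact hd Uᶜ hUc (by rwa [compl_compl]) (fun a ha hc => ha (hS a hc))
  obtain ⟨μ, hμ⟩ := pair_induction (A := A) k (by omega) _ V s t N rfl (fun U hU hUc =>
    ⟨two_le_dd s t k (by omega) hSh U hU hUc, fun h => hN U h⟩)
  have hdM0 : ∀ U : Set V, dM μ U ≤ dd s t U := by
    intro U
    rcases U.eq_empty_or_nonempty with h | h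
    · rw [h]
      unfold dM
      simp
    rcases Uᶜ.eq_empty_or_nonempty with h' | h'
    · rw [Set.compl_empty_iff] at h'
      rw [h']
      unfold dM
      simp
    · have := (hμ.bd U h h').1
      omega
  refine orient_of_cover hk s t μ hμ.invol hμ.odd hdM0 S typ B hS2 hS3 hBS huniq hher ?_
  intro U hU hUc hin
  rcases hcov U hU hUc hin with h | h
  · exact Or.inl ((hμ.bd U hU hUc).2 h)
  · exact Or.inr h

theorem dd_swap (s t : A → V) (U : Set V) : dd t s U = dd s t U := by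
  unfold dd
  refine sum_congr rfl fun a _ => ?_
  by_cases h1 : s a ∈ U <;> by_cases h2 : t a ∈ U <;> simp [h1, h2]

theorem inn_swap (s t : A → V) (O : A → Bool) (U : Set V) :
    inn t s O U = inn s t (fun a => !(O a)) U := by
  unfold inn
  refine sum_congr rfl fun a _ => ?_
  unfold hd tl
  cases h : O a <;> simp [h]

theorem Sh_swap (s t : A → V) (U : Set V) : Sh t s U ↔ Sh s t U := by
  unfold Sh
  exact or_comm

theorem rch_swap (s t : A → V) (u v : V) : Rch t s u v ↔ Rch s t v u := by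
  unfold Rch
  rw [← Relation.reflTransGen_swap]
  have : (Function.swap fun x y => ∃ a, t a = x ∧ s a = y) = fun x y => ∃ a, s a = x ∧ t a = y := by
    funext x y
    simp only [Function.swap]
    exact propext ⟨fun ⟨a, h1, h2⟩ => ⟨a, h2, h1⟩, fun ⟨a, h1, h2⟩ => ⟨a, h2, h1⟩⟩
  rw [this]

theorem bb_swap (s t : A → V) (v : V) : bb t s v = - bb s t v := by
  unfold bb
  rw [← sum_neg_distrib]
  refine sum_congr rfl fun a _ => ?_
  ring

/-- vertices which do not reach `R` form a sink side -/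
theorem noOut_notReach (s t : A → V) (R : Set V) :
    NoOut s t {v | ¬ ∃ r ∈ R, Rch s t v r} := by
  intro a ha hc
  apply ha
  obtain ⟨r, hr, h⟩ := hc
  exact ⟨r, hr, Relation.ReflTransGen.head ⟨a, rfl, rfl⟩ h⟩

theorem noIn_notReached (s t : A → V) (R : Set V) :
    NoIn s t {v | ¬ ∃ r ∈ R, Rch s t r v} := by
  intro a ha hc
  apply ha
  obtain ⟨r, hr, h⟩ := hc
  exact ⟨r, hr, Relation.ReflTransGen.tail h ⟨a, rfl, rfl⟩⟩

/-- in an acyclic digraph a nonempty source side contains a source -/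
theorem exists_source (s t : A → V) (hac : ∀ u v, Rch s t u v → Rch s t v u → u = v)
    (U : Set V) (hU : U.Nonempty) (hin : NoIn s t U) : ∃ u ∈ U, NoIn s t {u} := by
  obtain ⟨u, hu, hmin⟩ := Set.exists_min_image U (fun u => ({w | Rch s t w u} : Set V).ncard)
    (Set.toFinite _) hU
  refine ⟨u, hu, fun a ha => ?_⟩
  rw [Set.mem_singleton_iff] at ha ⊢
  by_contra hne
  have hsU : s a ∈ U := hin a (by rw [ha]; exact hu)
  have h1 := hmin (s a) hsU
  have hr : Rch s t (s a) u := Relation.ReflTransGen.single ⟨a, rfl, ha⟩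
  have h2 : ({w | Rch s t w (s a)} : Set V) ⊂ {w | Rch s t w u} := by
    refine ⟨fun w hw => Relation.ReflTransGen.trans hw hr, fun hsub => ?_⟩
    have : u ∈ ({w | Rch s t w (s a)} : Set V) := hsub (show Rch s t u u from Relation.ReflTransGen.refl)
    exact hne (hac _ _ hr this)
  have h3 := Set.ncard_lt_ncard h2 (Set.toFinite _)
  omega

/-- robustness of the source sides without vertices of negative net degree -/
theorem robust_of_nonneg {k : ℕ} (s t : A → V)
    (hd : ∀ U : Set V, U.Nonempty → Uᶜ.Nonempty → NoIn s t U → 2 * k ≤ dd s t U)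
    (hac : ∀ u v, Rch s t u v → Rch s t v u → u = v)
    (U : Set V) (hU : U.Nonempty) (hUc : Uᶜ.Nonempty) (hin : NoIn s t U)
    (hb : ∀ v ∈ U, 0 ≤ bb s t v) :
    2 * k + ({v | v ∈ U ∧ Odd (dd s t {v})} : Set V).ncard ≤ dd s t U := by
  obtain ⟨u, hu, huin⟩ := exists_source s t hac U hU hin
  have hdu : 2 * k ≤ dd s t {u} := hd {u} ⟨u, rfl⟩
    (hUc.mono (Set.compl_subset_compl.2 (Set.singleton_subset_iff.2 hu))) huin
  have hbu : bb s t u = dd s t {u} := by
    have := xs_bb_noIn s t {u} huin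
    rwa [xs_singleton] at this
  have hbU := xs_bb_noIn s t U hin
  have hcard : (({v | v ∈ U ∧ Odd (dd s t {v})} : Set V).ncard : ℤ) =
      ∑ v, if v ∈ U ∧ Odd (dd s t {v}) then 1 else 0 := by
    rw [Set.ncard_eq_toFinset_card', Set.toFinset_ofPred, card_filter]
    push_cast
    rfl
  have hpt : ∀ v, (if v ∈ U ∧ Odd (dd s t {v}) then (1 : ℤ) else 0) +
      (if v = u then (2 * k : ℤ) else 0) ≤ if v ∈ U then bb s t v else 0 := by
    intro v
    by_cases hv : v ∈ U
    · rw [if_pos hv]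
      by_cases hvu : v = u
      · subst hvu
        rw [if_pos rfl, hbu]
        by_cases ho : Odd (dd s t {v})
        · rw [if_pos ⟨hv, ho⟩]
          obtain ⟨m, hm⟩ := ho
          have : 2 * k + 1 ≤ dd s t {v} := by omega
          have : (2 * k + 1 : ℤ) ≤ dd s t {v} := by exact_mod_cast this
          linarith
        · rw [if_neg (fun h => ho h.2)]
          have : (2 * k : ℤ) ≤ dd s t {v} := by exact_mod_cast hdu
          linarith
      · rw [if_neg hvu, add_zero]
        by_cases ho : Odd (dd s t {v})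
        · rw [if_pos ⟨hv, ho⟩]
          have h1 : Odd (bb s t v) := (odd_bb s t v).2 ho
          have h2 := hb v hv
          obtain ⟨m, hm⟩ := h1
          omega
        · rw [if_neg (fun h => ho h.2)]
          exact hb v hv
    · have hvu : v ≠ u := fun h => hv (h ▸ hu)
      rw [if_neg hv, if_neg (fun h => hv h.1), if_neg hvu]
      norm_num
  have hsum := sum_le_sum (s := (univ : Finset V)) fun v _ => hpt v
  rw [sum_add_distrib, sum_ite_eq', if_pos (mem_univ u), ← hcard] at hsum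
  have : (2 * k : ℤ) + ({v | v ∈ U ∧ Odd (dd s t {v})} : Set V).ncard ≤ dd s t U := by
    rw [← hbU]
    unfold xs
    linarith
  exact_mod_cast this

/-- the hereditary condition is automatic if all odd vertices of the side are assigned -/
theorem her_all {k : ℕ} (s t : A → V)
    (hd : ∀ U : Set V, U.Nonempty → Uᶜ.Nonempty → NoIn s t U → 2 * k ≤ dd s t U)
    (S B : Set V) (b : Bool) (hS1 : Sᶜ.Nonempty)
    (hB : ∀ v ∈ S, Odd (dd s t {v}) → v ∈ B) (Z : Set V) (hZ : Z.Nonempty) (hZS : Z ⊆ S)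
    (h1 : b = true → NoOut s t Z) (h2 : b = false → NoIn s t Z) :
    2 * k + ({v | v ∈ Z ∧ (Odd (dd s t {v}) ∧ v ∉ B)} : Set V).ncard ≤ dd s t Z := by
  have h0 : ({v | v ∈ Z ∧ (Odd (dd s t {v}) ∧ v ∉ B)} : Set V) = ∅ := by
    ext v
    simp only [Set.mem_ofPred_eq, Set.mem_empty_iff_false, iff_false]
    rintro ⟨h3, h4, h5⟩
    exact h5 (hB v (hZS h3) h4)
  rw [h0, Set.ncard_empty, add_zero]
  have hZc : Zᶜ.Nonempty := hS1.mono (Set.compl_subset_compl.2 hZS)
  cases hb : b
  · exact hd Z hZ hZc (h2 hb)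
  · rw [← dd_compl]
    exact hd Zᶜ hZc (by rwa [compl_compl]) (fun a ha hc => ha (h1 hb a hc))

/-- a hub `R` which reaches all vertices with negative net degree -/
theorem hub {k : ℕ} (hk : 3 ≤ k) (s t : A → V) (R : Set V) (hR : R.Nonempty)
    (hd : ∀ U : Set V, U.Nonempty → Uᶜ.Nonempty → NoIn s t U → 2 * k ≤ dd s t U)
    (hac : ∀ u v, Rch s t u v → Rch s t v u → u = v)
    (hN : ∀ U : Set V, NSep R U → 2 * k ≤ dd s t U)
    (hub : ∀ v, bb s t v < 0 → ∃ r ∈ R, Rch s t r v) :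
    ∃ O : A → Bool, ∀ U : Set V, U.Nonempty → Uᶜ.Nonempty → Sh s t U → k ≤ inn s t O U := by
  obtain ⟨r0, hr0⟩ := hR
  refine gen hk s t R hd hN (ι := Unit) (fun _ => {v | ¬ ∃ r ∈ R, Rch s t v r}) (fun _ => true)
    (fun _ => {v | ¬ ∃ r ∈ R, Rch s t v r})
    (fun _ _ => noOut_notReach s t R) (fun _ h => absurd h (by simp)) (fun _ => le_refl _)
    (fun _ _ _ _ _ _ => rfl) (fun _ => her_all s t hd _ _ true
      ⟨r0, fun h => h ⟨r0, hr0, Relation.ReflTransGen.refl⟩⟩ (fun _ h _ => h)) ?_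
  intro U hU hUc hin
  by_cases h1 : NSep R U
  · exact Or.inl h1
  · by_cases h2 : ∃ r ∈ R, r ∈ U
    · have h3 : ∀ r ∈ R, r ∈ U := by
        intro r hr
        by_contra hc
        exact h1 ⟨h2, r, hr, hc⟩
      refine Or.inr (Or.inr (Or.inl ⟨(), rfl, fun v hv hc => ?_⟩))
      obtain ⟨r, hr, hvr⟩ := hc
      exact hv (closed_of_noIn hin (h3 r hr) hvr)
    · refine Or.inr (Or.inr (Or.inr (Or.inl (robust_of_nonneg s t hd hac U hU hUc hin ?_))))
      intro v hv
      by_contra hneg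
      push Not at hneg
      obtain ⟨r, hr, hrv⟩ := hub v hneg
      exact h2 ⟨r, hr, closed_of_noIn hin hv hrv⟩

/-- a hub `R` comparable with all odd vertices -/
theorem hub_odd {k : ℕ} (hk : 3 ≤ k) (s t : A → V) (R : Set V) (hR : R.Nonempty)
    (hd : ∀ U : Set V, U.Nonempty → Uᶜ.Nonempty → NoIn s t U → 2 * k ≤ dd s t U)
    (hN : ∀ U : Set V, NSep R U → 2 * k ≤ dd s t U)
    (hub : ∀ v, Odd (dd s t {v}) → ∃ r ∈ R, Rch s t r v ∨ Rch s t v r) :
    ∃ O : A → Bool, ∀ U : Set V, U.Nonempty → Uᶜ.Nonempty → Sh s t U → k ≤ inn s t O U := by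
  obtain ⟨r0, hr0⟩ := hR
  refine gen hk s t R hd hN (ι := Bool) (fun b => if b = true then {v | ¬ ∃ r ∈ R, Rch s t v r}
    else {v | ¬ ∃ r ∈ R, Rch s t r v}) (fun b => b)
    (fun b => if b = true then {v | ¬ ∃ r ∈ R, Rch s t v r}
    else {v | ¬ ∃ r ∈ R, Rch s t r v}) ?_ ?_ (fun _ => le_refl _) ?_ (fun b => her_all s t hd _ _ b
      ?_ (fun _ h _ => h)) ?_
  · intro b hb
    rw [if_pos hb]
    exact noOut_notReach s t R
  · intro b hb
    rw [if_neg (by rw [hb]; simp)]
    exact noIn_notReached s t R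
  · intro v hv i j hi hj
    obtain ⟨r, hr, h⟩ := hub v hv
    cases i <;> cases j
    · rfl
    · exfalso
      rcases h with h | h
      · exact hi ⟨r, hr, h⟩
      · exact hj ⟨r, hr, h⟩
    · exfalso
      rcases h with h | h
      · exact hj ⟨r, hr, h⟩
      · exact hi ⟨r, hr, h⟩
    · rfl
  · refine ⟨r0, ?_⟩
    cases b
    · exact fun h => h ⟨r0, hr0, Relation.ReflTransGen.refl⟩
    · exact fun h => h ⟨r0, hr0, Relation.ReflTransGen.refl⟩
  · intro U hU hUc hin
    by_cases h1 : NSep R U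
    · exact Or.inl h1
    · by_cases h2 : ∃ r ∈ R, r ∈ U
      · have h3 : ∀ r ∈ R, r ∈ U := by
          intro r hr
          by_contra hc
          exact h1 ⟨h2, r, hr, hc⟩
        refine Or.inr (Or.inr (Or.inl ⟨true, rfl, fun v hv hc => ?_⟩))
        obtain ⟨r, hr, hvr⟩ := hc
        exact hv (closed_of_noIn hin (h3 r hr) hvr)
      · refine Or.inr (Or.inl ⟨false, rfl, fun v hv hc => ?_⟩)
        obtain ⟨r, hr, hrv⟩ := hc
        exact h2 ⟨r, hr, closed_of_noIn hin hv hrv⟩

end OS9e
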