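import Pool.Agent.Lib_MP_9e7d46_os.Cover
import Pool.Agent.Lib_MP_9e7d46_lk.Tjoin
import Pool.Agent.Lib_MP_9e7d46_co.Terminal

/-!
# A pairing from an integral flow (idea of helper94)
-/

set_option autoImplicit false
set_option linter.unusedSectionVars false

namespace OS9e
open Finset Classical Pool.Agent.DJ9e

variable {V A : Type} [Fintype V] [Fintype A]

/-- net amount of `θ` leaving `X` -/
noncomputable def nt (s t : A → V) (θ : A → ℤ) (X : Set V) : ℤ :=
  ∑ a, θ a * ((if s a ∈ X then 1 else 0) - (if t a ∈ X then 1 else 0))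

theorem path_flow (s t : A → V) {u v : V} (h : Rch s t u v) :
    ∃ θ : A → ℤ, (∀ a, 0 ≤ θ a) ∧ ∀ X : Set V,
      nt s t θ X = (if u ∈ X then 1 else 0) - (if v ∈ X then 1 else 0) := by
  unfold Rch at h
  induction h with
  | refl => exact ⟨fun _ => 0, fun _ => le_rfl, fun X => by simp [nt]⟩
  | tail _ hbc ih =>
    obtain ⟨a, rfl, rfl⟩ := hbc
    obtain ⟨θ, h0, h1⟩ := ih
    refine ⟨fun b => θ b + if b = a then 1 else 0, fun b => ?_, fun X => ?_⟩
    · have := h0 b
      dsimp only
      split_ifs <;> omega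
    · have h2 : nt s t (fun b => θ b + if b = a then 1 else 0) X = nt s t θ X +
          ((if s a ∈ X then 1 else 0) - (if t a ∈ X then 1 else 0)) := by
        unfold nt
        simp only [add_mul]
        rw [sum_add_distrib]
        congr 1
        simp only [ite_mul, one_mul, zero_mul]
        rw [sum_ite_eq', if_pos (mem_univ a)]
      rw [h2, h1]
      ring

theorem sum_sig (n : V → ℕ) (g : V → ℤ) :
    ∑ p : (Σ v, Fin (n v)), g p.1 = ∑ v, (n v : ℤ) * g v := by
  rw [Fintype.sum_sigma]
  refine sum_congr rfl fun v _ => ?_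
  simp

/-- feasibility of uncapacitated transshipments -/
theorem transship (s t : A → V) (b : V → ℤ) (h0 : xs b Set.univ = 0)
    (h : ∀ U : Set V, NoIn s t U → 0 ≤ xs b U) :
    ∃ θ : A → ℤ, (∀ a, 0 ≤ θ a) ∧ ∀ X : Set V, nt s t θ X = xs b X := by
  let P : Type := Σ v, Fin (b v).toNat
  let Q : Type := Σ v, Fin (-b v).toNat
  have hcardP : (Fintype.card P : ℤ) = ∑ v, ((b v).toNat : ℤ) := by
    have := sum_sig (fun v => (b v).toNat) (fun _ => 1)
    simpa [P] using this
  have hcardQ : (Fintype.card Q : ℤ) = ∑ v, ((-b v).toNat : ℤ) := by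
    have := sum_sig (fun v => (-b v).toNat) (fun _ => 1)
    simpa [Q] using this
  have hdiff : ∀ v, ((b v).toNat : ℤ) - ((-b v).toNat : ℤ) = b v := fun v => by omega
  have hHall : ∀ F : Finset P, F.card ≤ (F.biUnion fun p : P =>
      (univ : Finset Q).filter fun q => Rch s t p.1 q.1).card := by
    intro F
    obtain ⟨Y, hY⟩ : ∃ Y : Set V, Y = {v | ∃ p ∈ F, Rch s t p.1 v} := ⟨_, rfl⟩
    have hYo : NoOut s t Y := by
      refine noOut_of_closed fun u hu v huv => ?_
      rw [hY] at hu ⊢
      obtain ⟨p, hp, hpu⟩ := hu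
      exact ⟨p, hp, hpu.trans huv⟩
    have hYi : NoIn s t Yᶜ := fun a ha hc => ha (hYo a hc)
    have h1 := h Yᶜ hYi
    have h2 : xs b Y + xs b Yᶜ = 0 := by
      rw [← h0]
      unfold xs
      rw [← sum_add_distrib]
      refine sum_congr rfl fun v _ => ?_
      by_cases hv : v ∈ Y <;> simp [hv]
    have hF : (F.card : ℤ) ≤ ∑ v, ((b v).toNat : ℤ) * (if v ∈ Y then 1 else 0) := by
      rw [← sum_sig (fun v => (b v).toNat) (fun v => if v ∈ Y then 1 else 0)]
      have h3 : (F.card : ℤ) = ∑ p ∈ F, (1 : ℤ) := by simp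
      rw [h3]
      have h4 : ∑ p ∈ F, (1 : ℤ) ≤ ∑ p ∈ F, (if p.1 ∈ Y then (1 : ℤ) else 0) := by
        refine sum_le_sum fun p hp => ?_
        rw [if_pos]
        rw [hY]
        exact ⟨p, hp, Relation.ReflTransGen.refl⟩
      refine h4.trans (sum_le_sum_of_subset_of_nonneg (subset_univ F) fun p _ _ => ?_)
      split_ifs <;> norm_num
    have hG : ∑ v, ((-b v).toNat : ℤ) * (if v ∈ Y then 1 else 0) ≤
        ((F.biUnion fun p : P => (univ : Finset Q).filter fun q => Rch s t p.1 q.1).card : ℤ) := by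
      rw [← sum_sig (fun v => (-b v).toNat) (fun v => if v ∈ Y then 1 else 0)]
      rw [← sum_filter, sum_const, nsmul_eq_mul, mul_one]
      have hle : ((univ : Finset Q).filter fun q => q.1 ∈ Y).card ≤ (F.biUnion fun p : P =>
          (univ : Finset Q).filter fun q => Rch s t p.1 q.1).card := by
        refine card_le_card fun q hq => ?_
        rw [mem_filter] at hq
        have h3 := hq.2
        rw [hY] at h3
        obtain ⟨p, hp, hpq⟩ := h3
        rw [mem_biUnion]
        exact ⟨p, hp, by rw [mem_filter]; exact ⟨mem_univ _, hpq⟩⟩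
      exact_mod_cast hle
    have h5 : ∑ v, ((b v).toNat : ℤ) * (if v ∈ Y then 1 else 0) -
        ∑ v, ((-b v).toNat : ℤ) * (if v ∈ Y then 1 else 0) = xs b Y := by
      rw [← sum_sub_distrib]
      unfold xs
      refine sum_congr rfl fun v _ => ?_
      have := hdiff v
      by_cases hv : v ∈ Y
      · rw [if_pos hv, if_pos hv]
        linarith
      · rw [if_neg hv, if_neg hv]
        ring
    have h6 : (F.card : ℤ) ≤ ((F.biUnion fun p : P =>
        (univ : Finset Q).filter fun q => Rch s t p.1 q.1).card : ℤ) := by linarith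
    exact_mod_cast h6
  obtain ⟨f, hf, hfr⟩ := (all_card_le_biUnion_card_iff_exists_injective _).1 hHall
  have hcard : Fintype.card P = Fintype.card Q := by
    have h1 : (Fintype.card P : ℤ) - Fintype.card Q = 0 := by
      rw [hcardP, hcardQ, ← sum_sub_distrib, ← h0]
      unfold xs
      refine sum_congr rfl fun v _ => ?_
      rw [hdiff v]
      simp
    have h2 : (Fintype.card P : ℤ) = Fintype.card Q := by linarith
    exact_mod_cast h2
  have hbij : Function.Bijective f := (Fintype.bijective_iff_injective_and_card f).2 ⟨hf, hcard⟩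
  have hpath : ∀ p : P, ∃ θ : A → ℤ, (∀ a, 0 ≤ θ a) ∧ ∀ X : Set V,
      nt s t θ X = (if p.1 ∈ X then 1 else 0) - (if (f p).1 ∈ X then 1 else 0) := by
    intro p
    have := hfr p
    rw [mem_filter] at this
    exact path_flow s t this.2
  choose θ hθ0 hθ using hpath
  refine ⟨fun a => ∑ p, θ p a, fun a => sum_nonneg fun p _ => hθ0 p a, fun X => ?_⟩
  have h1 : nt s t (fun a => ∑ p, θ p a) X = ∑ p, nt s t (θ p) X := by
    unfold nt
    rw [sum_comm]
    refine sum_congr rfl fun a _ => ?_
    rw [sum_mul]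
  rw [h1, sum_congr rfl fun p _ => hθ p X, sum_sub_distrib]
  have h2 : ∑ p : P, (if (f p).1 ∈ X then (1 : ℤ) else 0) =
      ∑ q : Q, (if q.1 ∈ X then (1 : ℤ) else 0) :=
    hbij.sum_comp (fun q : Q => if q.1 ∈ X then (1 : ℤ) else 0)
  rw [h2]
  have h3 := sum_sig (fun v => (b v).toNat) (fun v => if v ∈ X then 1 else 0)
  have h4 := sum_sig (fun v => (-b v).toNat) (fun v => if v ∈ X then 1 else 0)
  rw [h3, h4, ← sum_sub_distrib]
  unfold xs
  refine sum_congr rfl fun v _ => ?_
  have := hdiff v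
  by_cases hv : v ∈ X
  · rw [if_pos hv, if_pos hv]
    linarith
  · rw [if_neg hv, if_neg hv]
    ring

theorem cr_unique {B : Type} [Fintype B] (s t : B → V) (v : V) (h : dd s t {v} ≤ 1) (a b : B)
    (ha : Cr s t {v} a) (hb : Cr s t {v} b) : a = b := by
  by_contra hab
  have := Term.card_le_dd s t {v} {a, b} (by
    intro c hc
    rw [mem_insert, mem_singleton] at hc
    rcases hc with rfl | rfl
    · exact ha
    · exact hb)
  rw [card_pair hab] at this
  omega

theorem cr_of_jn {B : Type} (s t : B → V) {v w : V} (h : v ≠ w) {a : B} (ha : Jn s t a v w)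
    (U : Set V) (hU : ¬ (v ∈ U ↔ w ∈ U)) : Cr s t U a := by
  unfold Cr
  rcases ha with ⟨h1, h2⟩ | ⟨h1, h2⟩
  · rw [h1, h2]
    exact hU
  · rw [h1, h2]
    exact fun h => hU h.symm

/-- the involution of a matching -/
theorem exists_mu {B : Type} [Fintype B] (s t : B → V) (h : ∀ v, dd s t {v} ≤ 1) :
    ∃ μ : V → V, (∀ v, μ (μ v) = v) ∧ (∀ v, μ v ≠ v ↔ dd s t {v} = 1) ∧
      ∀ U, dM μ U ≤ dd s t U := by
  have key : ∀ v, ∃ w, (dd s t {v} = 1 → w ≠ v ∧ ∃ a, Jn s t a v w) ∧
      (dd s t {v} ≠ 1 → w = v) := by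
    intro v
    by_cases hv : dd s t {v} = 1
    · obtain ⟨a, w, hw, ha⟩ := exists_arc_of_dd_pos s t v (by omega)
      exact ⟨w, fun _ => ⟨hw, a, ha⟩, fun h => absurd hv h⟩
    · exact ⟨v, fun h => absurd h hv, fun _ => rfl⟩
  choose μ h1 h2 using key
  have hinv : ∀ v, μ (μ v) = v := by
    intro v
    by_cases hv : dd s t {v} = 1
    · obtain ⟨hw, a, ha⟩ := h1 v hv
      have ha1 : Cr s t {μ v} a := cr_of_jn s t (Ne.symm hw) ha _ (by simp [Ne.symm hw])
      have hd1 : dd s t {μ v} = 1 := by
        have h3 := Term.card_le_dd s t {μ v} {a} (by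
          intro c hc
          rw [mem_singleton] at hc
          rw [hc]
          exact ha1)
        rw [card_singleton] at h3
        have := h (μ v)
        omega
      obtain ⟨hw', a', ha'⟩ := h1 (μ v) hd1
      have ha2 : Cr s t {μ v} a' := cr_of_jn s t (Ne.symm hw') ha' _ (by simp [hw'])
      have hEq := cr_unique s t (μ v) (h (μ v)) a a' ha1 ha2
      subst hEq
      unfold Jn at ha ha'
      rcases ha with ⟨e1, e2⟩ | ⟨e1, e2⟩ <;> rcases ha' with ⟨e3, e4⟩ | ⟨e3, e4⟩
      · exact absurd (e1.symm.trans e3) (Ne.symm hw)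
      · exact e3.symm.trans e1
      · exact e4.symm.trans e2
      · exact absurd (e2.symm.trans e4) (Ne.symm hw)
    · rw [h2 v hv]
      exact h2 v hv
  refine ⟨μ, hinv, fun v => ⟨fun hv => ?_, fun hv => (h1 v hv).1⟩, fun U => ?_⟩
  · by_contra hc
    exact hv (h2 v hc)
  · have hchoice : ∀ u : V, μ u ≠ u → ∃ a, Jn s t a u (μ u) := by
      intro u hu
      by_cases hv : dd s t {u} = 1
      · exact (h1 u hv).2
      · exact absurd (h2 u hv) hu
    unfold dM dd
    have e1 : (∑ u, if u ∈ U ∧ μ u ∉ U then 1 else 0) =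
        ((univ : Finset V).filter fun u => u ∈ U ∧ μ u ∉ U).card := (card_filter _ _).symm
    have e2 : (∑ a, if s a ∈ U ↔ t a ∈ U then 0 else 1) =
        ((univ : Finset B).filter fun a => ¬ (s a ∈ U ↔ t a ∈ U)).card := by
      rw [card_filter]
      refine sum_congr rfl fun a _ => ?_
      by_cases h3 : (s a ∈ U ↔ t a ∈ U)
      · rw [if_pos h3, if_neg (not_not.2 h3)]
      · rw [if_neg h3, if_pos h3]
    rw [e1, e2]
    have hne : ∀ u, u ∈ U → μ u ∉ U → μ u ≠ u := fun u h3 h4 h5 => h4 (h5.symm ▸ h3)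
    rcases isEmpty_or_nonempty B with hB | hB
    · have : ((univ : Finset V).filter fun u => u ∈ U ∧ μ u ∉ U) = ∅ := by
        ext u
        simp only [mem_filter, mem_univ, true_and, notMem_empty, iff_false]
        rintro ⟨h3, h4⟩
        obtain ⟨a, -⟩ := hchoice u (hne u h3 h4)
        exact hB.elim a
      rw [this]
      simp
    refine card_le_card_of_injOn (fun u => if hu : μ u ≠ u then (hchoice u hu).choose else
      Classical.arbitrary B) ?_ ?_
    · intro u hu
      rw [mem_coe, mem_filter] at hu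
      have hne' := hne u hu.2.1 hu.2.2
      have hsp := (hchoice u hne').choose_spec
      rw [mem_coe, mem_filter]
      refine ⟨mem_univ _, ?_⟩
      simp only [dif_pos hne']
      exact cr_of_jn s t (Ne.symm hne') hsp U (fun h => hu.2.2 (h.1 hu.2.1))
    · intro u hu u' hu' heq
      rw [mem_coe, mem_filter] at hu hu'
      have hne1 := hne u hu.2.1 hu.2.2
      have hne2 := hne u' hu'.2.1 hu'.2.2
      simp only [dif_pos hne1, dif_pos hne2] at heq
      have hs1 := (hchoice u hne1).choose_spec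
      have hs2 := (hchoice u' hne2).choose_spec
      rw [heq] at hs1
      unfold Jn at hs1 hs2
      rcases hs1 with ⟨c1, c2⟩ | ⟨c1, c2⟩ <;> rcases hs2 with ⟨c3, c4⟩ | ⟨c3, c4⟩
      · exact c1.symm.trans c3
      · exact absurd (show μ u' ∈ U by rw [← c3, c1]; exact hu.2.1) hu'.2.2
      · exact absurd (show μ u' ∈ U by rw [← c4, c2]; exact hu.2.1) hu'.2.2
      · exact c2.symm.trans c4

/-- A pairing of the odd vertices from an integral flow of value `2 k` from `p` to `q`. -/
theorem flow_pair (k : ℕ) (s t : A → V) (p q : V)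
    (hd : ∀ U : Set V, NoIn s t U → p ∈ U → q ∉ U → 2 * k ≤ dd s t U) :
    ∃ μ : V → V, (∀ v, μ (μ v) = v) ∧ (∀ v, μ v ≠ v ↔ Odd (dd s t {v})) ∧
      (∀ U : Set V, dM μ U ≤ dd s t U) ∧
      ∀ U : Set V, NoIn s t U → p ∈ U → q ∉ U → dM μ U + 2 * k ≤ dd s t U := by
  obtain ⟨b, hb⟩ : ∃ b : V → ℤ, b = fun v => bb s t v + ((if v = p then -(2 * k : ℤ) else 0) +
    (if v = q then (2 * k : ℤ) else 0)) := ⟨_, rfl⟩
  have hxb : ∀ X : Set V, xs b X = xs (bb s t) X + ((if p ∈ X then -(2 * k : ℤ) else 0) +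
      (if q ∈ X then (2 * k : ℤ) else 0)) := by
    intro X
    rw [hb, xs_add', xs_add']
    congr 1
    congr 1
    · unfold xs
      have : ∀ u, (if u ∈ X then (if u = p then -(2 * k : ℤ) else 0) else 0) =
          if u = p then (if p ∈ X then -(2 * k : ℤ) else 0) else 0 := by
        intro u
        by_cases h1 : u = p
        · subst h1
          simp
        · simp [h1]
      rw [sum_congr rfl fun u _ => this u, sum_ite_eq', if_pos (mem_univ p)]
    · unfold xs
      have : ∀ u, (if u ∈ X then (if u = q then (2 * k : ℤ) else 0) else 0) =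
          if u = q then (if q ∈ X then (2 * k : ℤ) else 0) else 0 := by
        intro u
        by_cases h1 : u = q
        · subst h1
          simp
        · simp [h1]
      rw [sum_congr rfl fun u _ => this u, sum_ite_eq', if_pos (mem_univ q)]
  obtain ⟨θ, hθ0, hθ⟩ := transship s t b (by
    rw [hxb, xs_bb]
    simp) (by
    intro U hU
    rw [hxb, xs_bb_noIn s t U hU]
    by_cases h1 : p ∈ U <;> by_cases h2 : q ∈ U
    · rw [if_pos h1, if_pos h2]
      have : (0 : ℤ) ≤ dd s t U := by positivity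
      linarith
    · rw [if_pos h1, if_neg h2]
      have : ((2 * k : ℕ) : ℤ) ≤ dd s t U := by exact_mod_cast hd U hU h1 h2
      push_cast at this
      linarith
    · rw [if_neg h1, if_pos h2]
      positivity
    · rw [if_neg h1, if_neg h2]
      positivity)
  let J : Type := {a : A // Odd (θ a)}
  let sJ : J → V := fun a => s a.1
  let tJ : J → V := fun a => t a.1
  have hJ : ∀ U : Set V, dd sJ tJ U = ∑ a, if Odd (θ a) then
      (if (s a ∈ U ↔ t a ∈ U) then 0 else 1) else 0 := by
    intro U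
    rw [← sum_filter]
    rw [Finset.sum_subtype (univ.filter fun a => Odd (θ a)) (p := fun a => Odd (θ a))
      (fun x => by simp)]
    rfl
  have hJle : ∀ U : Set V, dd sJ tJ U ≤ dd s t U := by
    intro U
    rw [hJ]
    unfold dd
    refine sum_le_sum fun a _ => ?_
    split_ifs <;> simp
  have hJin : ∀ U : Set V, NoIn s t U → (dd sJ tJ U : ℤ) ≤ nt s t θ U := by
    intro U hU
    rw [hJ]
    unfold nt
    push_cast
    refine sum_le_sum fun a _ => ?_
    have h0 := hθ0 a
    have h1 := hU a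
    by_cases h2 : Odd (θ a)
    · have h3 : 1 ≤ θ a := by
        rcases h2 with ⟨m, hm⟩
        omega
      by_cases h4 : s a ∈ U <;> by_cases h5 : t a ∈ U
      · simp [h4, h5]
      · simp [h4, h5, h2, h3]
      · exact absurd (h1 h5) h4
      · simp [h4, h5]
    · by_cases h4 : s a ∈ U <;> by_cases h5 : t a ∈ U
      · simp [h4, h5]
      · simp [h4, h5, h2, h0]
      · exact absurd (h1 h5) h4
      · simp [h4, h5]
  have hJpar : ∀ v, Even ((dd sJ tJ {v} : ℤ) - dd s t {v}) := by
    intro v
    have h1 : Even ((dd sJ tJ {v} : ℤ) - nt s t θ {v}) := by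
      rw [hJ]
      unfold nt
      push_cast
      rw [← sum_sub_distrib]
      refine even_sum _ fun a _ => ?_
      by_cases h2 : Odd (θ a)
      · obtain ⟨m, hm⟩ := h2
        have h2' : Odd (θ a) := ⟨m, hm⟩
        by_cases h4 : s a = v <;> by_cases h5 : t a = v
        · simp [h4, h5]
        · simp only [h4, h5, h2', Set.mem_singleton_iff, if_true, if_false, true_iff, sub_zero,
            mul_one]
          exact ⟨-m, by rw [hm]; ring⟩
        · simp only [h4, h5, h2', Set.mem_singleton_iff, if_true, if_false, iff_true, zero_sub,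
            mul_neg, mul_one]
          exact ⟨m + 1, by rw [hm]; ring⟩
        · simp [h4, h5]
      · have h2' := h2
        rw [Int.not_odd_iff_even] at h2
        obtain ⟨m, hm⟩ := h2
        rw [if_neg h2']
        refine Even.sub ⟨0, rfl⟩ ?_
        exact (show Even (θ a) from ⟨m, hm⟩).mul_right _
    have h2 : Even (nt s t θ {v} - dd s t {v}) := by
      rw [hθ, hxb]
      have h3 : xs (bb s t) {v} = bb s t v := by
        unfold xs
        simp
      rw [h3]
      have h4 : Even (bb s t v - (dd s t {v} : ℤ)) := by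
        unfold bb dd
        push_cast
        rw [← sum_sub_distrib]
        refine even_sum _ fun a _ => ?_
        by_cases h1 : s a = v <;> by_cases h2 : t a = v <;> simp [h1, h2]
      obtain ⟨m, hm⟩ := h4
      by_cases c1 : p ∈ ({v} : Set V) <;> by_cases c2 : q ∈ ({v} : Set V)
      · rw [if_pos c1, if_pos c2]
        exact ⟨m, by linarith⟩
      · rw [if_pos c1, if_neg c2]
        exact ⟨m - k, by linarith⟩
      · rw [if_neg c1, if_pos c2]
        exact ⟨m + k, by linarith⟩
      · rw [if_neg c1, if_neg c2]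
        exact ⟨m, by linarith⟩
    have h3 := h1.add h2
    have e : ((dd sJ tJ {v} : ℤ) - nt s t θ {v}) + (nt s t θ {v} - dd s t {v}) =
        (dd sJ tJ {v} : ℤ) - dd s t {v} := by ring
    rw [← e]
    exact h3
  obtain ⟨s', t', h1, h2⟩ := Pool.Agent.LK9e.tjoin (A := J) _ sJ tJ rfl
  obtain ⟨μ, hμ1, hμ2, hμ3⟩ := exists_mu s' t' h2
  have hle : ∀ U : Set V, dM μ U ≤ dd sJ tJ U := by
    intro U
    obtain ⟨j, hj⟩ := h1 U
    have := hμ3 U
    omega
  refine ⟨μ, hμ1, fun v => ?_, fun U => (hle U).trans (hJle U), fun U hU hp hq => ?_⟩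
  · rw [hμ2]
    obtain ⟨j, hj⟩ := h1 {v}
    obtain ⟨m, hm⟩ := hJpar v
    have hv := h2 v
    constructor
    · intro h3
      rw [Nat.odd_iff]
      omega
    · intro h3
      rw [Nat.odd_iff] at h3
      omega
  · have h3 := hle U
    have h4 := hJin U hU
    rw [hθ, hxb, xs_bb_noIn s t U hU, if_pos hp, if_neg hq] at h4
    have h5 : (dM μ U : ℤ) ≤ dd sJ tJ U := by exact_mod_cast h3
    have h6 : ((dM μ U + 2 * k : ℕ) : ℤ) ≤ dd s t U := by
      push_cast
      linarith
    exact_mod_cast h6

end OS9e
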