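import Pool.Agent.Lib_MP_9e7d46_os.Sides
import Pool.Agent.Lib_MP_9e7d46_co.Hakimi

/-!
# From sides to orientations
-/

set_option autoImplicit false
set_option linter.unusedSectionVars false

namespace OS9e
open Finset Classical Pool.Agent.DJ9e

variable {V A : Type} [Fintype V] [Fintype A]

/-- no arc enters `U` -/
def NoIn (s t : A → V) (U : Set V) : Prop := ∀ a, t a ∈ U → s a ∈ U

/-- no arc leaves `U` -/
def NoOut (s t : A → V) (U : Set V) : Prop := ∀ a, s a ∈ U → t a ∈ U

/-- there is a directed path from `u` to `v` -/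
def Rch (s t : A → V) (u v : V) : Prop :=
  Relation.ReflTransGen (fun x y => ∃ a, s a = x ∧ t a = y) u v

/-- out-degree minus in-degree -/
noncomputable def bb (s t : A → V) (v : V) : ℤ :=
  ∑ a, ((if s a = v then 1 else 0) - (if t a = v then 1 else 0))

theorem xs_bb (s t : A → V) (U : Set V) :
    xs (bb s t) U = ∑ a, ((if s a ∈ U then 1 else 0) - (if t a ∈ U then 1 else 0)) := by
  unfold xs bb
  have h1 : ∀ v, (if v ∈ U then ∑ a, ((if s a = v then (1 : ℤ) else 0) -
      (if t a = v then 1 else 0)) else 0) =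
      ∑ a, ((if s a = v then (if v ∈ U then 1 else 0) else 0) -
        (if t a = v then (if v ∈ U then 1 else 0) else 0)) := by
    intro v
    by_cases hv : v ∈ U <;> simp [hv]
  rw [sum_congr rfl fun v _ => h1 v, sum_comm]
  refine sum_congr rfl fun a _ => ?_
  rw [sum_sub_distrib, sum_ite_eq, sum_ite_eq]
  simp

theorem xs_bb_noOut (s t : A → V) (U : Set V) (h : NoOut s t U) :
    xs (bb s t) U = -(dd s t U : ℤ) := by
  rw [xs_bb]
  unfold dd
  push_cast
  rw [← sum_neg_distrib]
  refine sum_congr rfl fun a _ => ?_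
  have := h a
  by_cases h1 : s a ∈ U <;> by_cases h2 : t a ∈ U <;> simp_all

theorem xs_bb_noIn (s t : A → V) (U : Set V) (h : NoIn s t U) :
    xs (bb s t) U = (dd s t U : ℤ) := by
  rw [xs_bb]
  unfold dd
  push_cast
  refine sum_congr rfl fun a _ => ?_
  have := h a
  by_cases h1 : s a ∈ U <;> by_cases h2 : t a ∈ U <;> simp_all

theorem odd_bb (s t : A → V) (v : V) : Odd (bb s t v) ↔ Odd (dd s t {v}) := by
  have h : Even (bb s t v + (dd s t {v} : ℤ)) := by
    unfold bb dd
    push_cast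
    rw [← sum_add_distrib]
    refine even_sum _ fun a _ => ?_
    by_cases h1 : s a = v <;> by_cases h2 : t a = v <;> simp [h1, h2]
  rw [← Int.odd_coe_nat]
  have h2 : ¬ Odd (bb s t v + (dd s t {v} : ℤ)) := Int.not_odd_iff_even.2 h
  rw [Int.odd_add] at h2
  rw [← Int.not_even_iff_odd (n := (dd s t {v} : ℤ))]
  tauto

theorem xs_neg' (x : V → ℤ) (U : Set V) : xs (fun v => - x v) U = - xs x U := by
  unfold xs
  rw [← sum_neg_distrib]
  refine sum_congr rfl fun v _ => ?_
  split_ifs <;> simp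

theorem noOut_of_closed {s t : A → V} {Z : Set V} (h : ∀ u ∈ Z, ∀ v, Rch s t u v → v ∈ Z) :
    NoOut s t Z := fun a ha => h _ ha _ (Relation.ReflTransGen.single ⟨a, rfl, rfl⟩)

theorem noIn_of_closed {s t : A → V} {Z : Set V} (h : ∀ u ∈ Z, ∀ v, Rch s t v u → v ∈ Z) :
    NoIn s t Z := fun a ha => h _ ha _ (Relation.ReflTransGen.single ⟨a, rfl, rfl⟩)

theorem closed_of_noOut {s t : A → V} {Z : Set V} (h : NoOut s t Z) {u v : V} (hu : u ∈ Z)
    (huv : Rch s t u v) : v ∈ Z := by
  unfold Rch at huv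
  induction huv with
  | refl => exact hu
  | tail _ hbc ih =>
    obtain ⟨a, rfl, rfl⟩ := hbc
    exact h a ih

theorem closed_of_noIn {s t : A → V} {Z : Set V} (h : NoIn s t Z) {u v : V} (hu : u ∈ Z)
    (huv : Rch s t v u) : v ∈ Z := by
  unfold Rch at huv
  induction huv using Relation.ReflTransGen.head_induction_on with
  | refl => exact hu
  | head hab _ ih =>
    obtain ⟨a, rfl, rfl⟩ := hab
    exact h a ih

theorem abs_xs_le_card (σ : V → ℤ) (h : ∀ v, |σ v| ≤ 1) (U : Set V) :
    |xs σ U| ≤ ({v | v ∈ U ∧ σ v ≠ 0} : Set V).ncard := by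
  unfold xs
  refine (abs_sum_le_sum_abs _ _).trans ?_
  rw [Set.ncard_eq_toFinset_card', Set.toFinset_ofPred, card_filter]
  push_cast
  refine sum_le_sum fun v _ => ?_
  by_cases h1 : v ∈ U
  · by_cases h2 : σ v = 0
    · simp [h1, h2]
    · rw [if_pos h1, if_pos ⟨h1, h2⟩]
      exact h v
  · simp [h1]

theorem xs_add' (x y : V → ℤ) (U : Set V) : xs (fun v => x v + y v) U = xs x U + xs y U := by
  unfold xs
  rw [← sum_add_distrib]
  refine sum_congr rfl fun v _ => ?_
  split_ifs <;> simp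

theorem xs_ind (p : V → Prop) (U : Set V) :
    xs (fun v => if p v then 1 else 0) U = ({v | v ∈ U ∧ p v} : Set V).ncard := by
  unfold xs
  rw [Set.ncard_eq_toFinset_card', Set.toFinset_ofPred, card_filter]
  push_cast
  refine sum_congr rfl fun v _ => ?_
  by_cases h1 : v ∈ U <;> by_cases h2 : p v <;> simp [h1, h2]

/-- a sign vector for a family of source sides and sink sides; `A i` is the set of vertices assigned to the
side `i` -/
theorem sides_signs {k : ℕ} (hk : 3 ≤ k) (s t : A → V)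
    (μ : V → V) (hμ : ∀ v, μ (μ v) = v) (hodd : ∀ v, μ v ≠ v ↔ Odd (dd s t {v}))
    {ι : Type} [Fintype ι] (S : ι → Set V) (typ : ι → Bool) (B : ι → Set V)
    (hS2 : ∀ i, typ i = true → NoOut s t (S i)) (hS3 : ∀ i, typ i = false → NoIn s t (S i))
    (hBS : ∀ i, B i ⊆ S i)
    (huniq : ∀ v, Odd (dd s t {v}) → ∀ i j, v ∈ B i → v ∈ B j → i = j)
    (hher : ∀ i, ∀ Z : Set V, Z.Nonempty → Z ⊆ S i → (typ i = true → NoOut s t Z) →
      (typ i = false → NoIn s t Z) →
      2 * k + ({v | v ∈ Z ∧ (Odd (dd s t {v}) ∧ v ∉ B i)} : Set V).ncard ≤ dd s t Z) :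
    ∃ σ : V → ℤ, (∀ v, σ (μ v) = - σ v) ∧ (∀ v, μ v ≠ v → σ v = 1 ∨ σ v = -1) ∧
      (∀ v, μ v = v → σ v = 0) ∧
      ∀ i, ∀ Z : Set V, Z.Nonempty → Z ⊆ S i → (typ i = true → NoOut s t Z) →
        (typ i = false → NoIn s t Z) → |xs σ Z| ≤ dd s t Z - 2 * k := by
  let R : ι → V → V → Prop := fun i u v => if typ i = true then Rch s t u v else Rch s t v u
  let y0 : ι → V → ℤ := fun i v => if typ i = true then bb s t v else - bb s t v
  let q : ι → V → ℤ := fun i v => if Odd (dd s t {v}) ∧ v ∉ B i then 1 else 0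
  let y : ι → V → ℤ := fun i v => y0 i v + q i v
  have hr : ∀ i v, R i v v := by
    intro i v
    simp only [R]
    split_ifs <;> exact Relation.ReflTransGen.refl
  have ht : ∀ i u v w, R i u v → R i v w → R i u w := by
    intro i u v w
    simp only [R]
    split_ifs
    · exact fun h1 h2 => Relation.ReflTransGen.trans h1 h2
    · exact fun h1 h2 => Relation.ReflTransGen.trans h2 h1
  have hyZ : ∀ i, ∀ Z : Set V, (typ i = true → NoOut s t Z) → (typ i = false → NoIn s t Z) →
      xs (y i) Z = -(dd s t Z : ℤ) +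
        ({v | v ∈ Z ∧ (Odd (dd s t {v}) ∧ v ∉ B i)} : Set V).ncard := by
    intro i Z h1 h2
    have e1 : xs (y i) Z = xs (y0 i) Z + xs (q i) Z := xs_add' _ _ _
    have e2 : xs (q i) Z = ({v | v ∈ Z ∧ (Odd (dd s t {v}) ∧ v ∉ B i)} : Set V).ncard := by
      rw [← xs_ind (fun v => Odd (dd s t {v}) ∧ v ∉ B i) Z]
      congr 1
      funext v
      by_cases h : Odd (dd s t {v}) ∧ v ∉ B i
      · simp only [q]
        rw [if_pos h, if_pos h]
      · simp only [q]
        rw [if_neg h, if_neg h]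
    rw [e1, e2]
    congr 1
    cases hi : typ i
    · have : y0 i = fun v => - bb s t v := by
        funext v
        simp [y0, hi]
      rw [this, xs_neg', xs_bb_noIn s t Z (h2 hi)]
    · have : y0 i = bb s t := by
        funext v
        simp [y0, hi]
      rw [this, xs_bb_noOut s t Z (h1 hi)]
  have hcl : ∀ i, ∀ Z : Set V, (∀ u ∈ Z, ∀ v, R i u v → v ∈ Z) →
      (typ i = true → NoOut s t Z) ∧ (typ i = false → NoIn s t Z) := by
    intro i Z hZ
    refine ⟨fun hi => noOut_of_closed fun u hu v huv => hZ u hu v ?_,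
      fun hi => noIn_of_closed fun u hu v huv => hZ u hu v ?_⟩
    · simp only [R]
      rw [if_pos hi]
      exact huv
    · simp only [R]
      rw [if_neg (by rw [hi]; simp)]
      exact huv
  have hcl' : ∀ i, ∀ Z : Set V, (typ i = true → NoOut s t Z) → (typ i = false → NoIn s t Z) →
      ∀ u ∈ Z, ∀ v, R i u v → v ∈ Z := by
    intro i Z h1 h2 u hu v huv
    cases hi : typ i
    · simp only [R, hi] at huv
      exact closed_of_noIn (h2 hi) hu huv
    · simp only [R, hi] at huv
      exact closed_of_noOut (h1 hi) hu huv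
  have hy0 : ∀ i v, Odd (y0 i v) ↔ Odd (dd s t {v}) := by
    intro i v
    simp only [y0]
    split_ifs
    · exact odd_bb s t v
    · rw [odd_neg]
      exact odd_bb s t v
  obtain ⟨σ, h1, h2, h3, h4⟩ := sides hk S R hr ht y (fun i => hcl' i (S i) (hS2 i) (hS3 i))
    (by
      intro i Z hZ hZS hZc
      obtain ⟨c1, c2⟩ := hcl i Z hZc
      rw [hyZ i Z c1 c2]
      have := hher i Z hZ hZS c1 c2
      have : (2 * k : ℤ) + ({v | v ∈ Z ∧ (Odd (dd s t {v}) ∧ v ∉ B i)} : Set V).ncard ≤
          dd s t Z := by exact_mod_cast this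
      linarith) μ hμ B hBS (by
      intro i v _
      rw [hodd]
      by_cases ho : Odd (dd s t {v})
      · by_cases hB : v ∈ B i
        · have : y i v = y0 i v := by
            simp only [y, q]
            rw [if_neg (fun h => h.2 hB), add_zero]
          rw [this, hy0]
          exact ⟨fun _ => ⟨ho, hB⟩, fun _ => ho⟩
        · have : y i v = y0 i v + 1 := by
            simp only [y, q]
            rw [if_pos ⟨ho, hB⟩]
          rw [this]
          have h5 : Even (y0 i v + 1) := ((hy0 i v).2 ho).add_one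
          exact ⟨fun h => absurd h5 (Int.not_even_iff_odd.2 h), fun h => absurd h.2 hB⟩
      · have : y i v = y0 i v := by
          simp only [y, q]
          rw [if_neg (fun h => ho h.1), add_zero]
        rw [this, hy0]
        exact ⟨fun h => absurd h ho, fun h => h.1⟩) (fun v hv => huniq v ((hodd v).1 hv))
  refine ⟨σ, h1, h2, h3, fun i Z hZ hZS c1 c2 => ?_⟩
  have h5 := h4 i Z hZ hZS (hcl' i Z c1 c2)
  rw [hyZ i Z c1 c2] at h5
  have e1 : xs σ Z = xs (fun v => if v ∈ B i then σ v else 0) Z +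
      xs (fun v => if v ∈ B i then 0 else σ v) Z := by
    rw [← xs_add']
    congr 1
    funext v
    by_cases hB : v ∈ B i <;> simp [hB]
  have habs : ∀ v, |if v ∈ B i then 0 else σ v| ≤ 1 := by
    intro v
    by_cases hB : v ∈ B i
    · simp [hB]
    · rw [if_neg hB]
      by_cases h : μ v = v
      · rw [h3 v h]
        simp
      · rcases h2 v h with h | h <;> rw [h] <;> simp
  have h6 := abs_xs_le_card (fun v => if v ∈ B i then 0 else σ v) habs Z
  have e2 : ({v | v ∈ Z ∧ (if v ∈ B i then 0 else σ v) ≠ 0} : Set V) =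
      {v | v ∈ Z ∧ (Odd (dd s t {v}) ∧ v ∉ B i)} := by
    ext v
    simp only [Set.mem_ofPred_eq]
    by_cases hB : v ∈ B i
    · simp [hB]
    · simp only [hB, if_false, not_false_eq_true, and_true]
      rw [← hodd]
      refine and_congr_right fun _ => ⟨fun h hc => h (h3 v hc), fun h => ?_⟩
      rcases h2 v h with h | h <;> rw [h] <;> norm_num
  rw [e2] at h6
  have h7 := abs_add_le (xs (fun v => if v ∈ B i then σ v else 0) Z)
    (xs (fun v => if v ∈ B i then 0 else σ v) Z)
  rw [e1]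
  linarith

/-- the main theorem for a given pairing -/
theorem orient_of_cover {k : ℕ} (hk : 3 ≤ k) (s t : A → V)
    (μ : V → V) (hμ : ∀ v, μ (μ v) = v) (hodd : ∀ v, μ v ≠ v ↔ Odd (dd s t {v}))
    (hM : ∀ U : Set V, dM μ U ≤ dd s t U)
    {ι : Type} [Fintype ι] (S : ι → Set V) (typ : ι → Bool) (B : ι → Set V)
    (hS2 : ∀ i, typ i = true → NoOut s t (S i)) (hS3 : ∀ i, typ i = false → NoIn s t (S i))
    (hBS : ∀ i, B i ⊆ S i)
    (huniq : ∀ v, Odd (dd s t {v}) → ∀ i j, v ∈ B i → v ∈ B j → i = j)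
    (hher : ∀ i, ∀ Z : Set V, Z.Nonempty → Z ⊆ S i → (typ i = true → NoOut s t Z) →
      (typ i = false → NoIn s t Z) →
      2 * k + ({v | v ∈ Z ∧ (Odd (dd s t {v}) ∧ v ∉ B i)} : Set V).ncard ≤ dd s t Z)
    (hcov : ∀ U : Set V, U.Nonempty → Uᶜ.Nonempty → NoIn s t U →
      dM μ U + 2 * k ≤ dd s t U ∨ (∃ i, typ i = false ∧ U ⊆ S i) ∨
      (∃ i, typ i = true ∧ Uᶜ ⊆ S i) ∨
      2 * k + ({v | v ∈ U ∧ Odd (dd s t {v})} : Set V).ncard ≤ dd s t U ∨
      2 * k + ({v | v ∉ U ∧ Odd (dd s t {v})} : Set V).ncard ≤ dd s t U) :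
    ∃ O : A → Bool, ∀ U : Set V, U.Nonempty → Uᶜ.Nonempty → Sh s t U → k ≤ inn s t O U := by
  obtain ⟨σ, h1, h2, h3, h4⟩ := sides_signs hk s t μ hμ hodd S typ B hS2 hS3 hBS huniq hher
  have habs : ∀ v, |σ v| ≤ 1 := by
    intro v
    by_cases h : μ v = v
    · rw [h3 v h]
      simp
    · rcases h2 v h with h | h <;> rw [h] <;> simp
  have hz : ∀ v, σ v ≠ 0 ↔ Odd (dd s t {v}) := by
    intro v
    rw [← hodd]
    constructor
    · intro h hc
      exact h (h3 v hc)
    · intro h
      rcases h2 v h with h | h <;> rw [h] <;> norm_num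
  have htot : xs σ Set.univ = 0 := by
    have := abs_xs_le μ hμ σ h1 habs Set.univ
    have h0 : dM μ Set.univ = 0 := by
      unfold dM
      exact sum_eq_zero fun u _ => by simp
    rw [h0] at this
    exact abs_eq_zero.1 (le_antisymm this (abs_nonneg _))
  have hcomp : ∀ U : Set V, xs σ Uᶜ = - xs σ U := by
    intro U
    have := xs_add_compl σ U
    rw [htot] at this
    linarith
  obtain ⟨O, hO⟩ := hakimi s t σ (by
    intro u
    by_cases h : μ u = u
    · rw [h3 u h, zero_add]
      have : ¬ Odd (dd s t {u}) := fun hc => (hodd u).2 hc h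
      rw [Int.even_coe_nat]
      exact Nat.not_odd_iff_even.1 this
    · have h5 : Odd (dd s t {u} : ℤ) := (Int.odd_coe_nat _).2 ((hodd u).1 h)
      rcases h2 u h with h | h <;> rw [h]
      · exact odd_one.add_odd h5
      · exact odd_neg_one.add_odd h5) htot (by
    intro U
    refine (le_abs_self _).trans ((abs_xs_le μ hμ σ h1 habs U).trans ?_)
    exact_mod_cast hM U)
  have key : ∀ U : Set V, U.Nonempty → Uᶜ.Nonempty → NoIn s t U →
      |xs σ U| ≤ dd s t U - 2 * k := by
    intro U hU hUc hin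
    rcases hcov U hU hUc hin with h | ⟨i, hi, hUS⟩ | ⟨i, hi, hUS⟩ | h | h
    · have h5 := abs_xs_le μ hμ σ h1 habs U
      have h6 : (dM μ U : ℤ) + 2 * k ≤ dd s t U := by exact_mod_cast h
      linarith
    · exact h4 i U hU hUS (fun hh => by rw [hi] at hh; exact absurd hh (by simp)) (fun _ => hin)
    · have h5 := h4 i Uᶜ hUc hUS (fun _ a ha hc => ha (hin a hc))
        (fun hh => by rw [hi] at hh; exact absurd hh (by simp))
      rw [hcomp, abs_neg, dd_compl] at h5
      exact h5
    · have h5 := abs_xs_le_card σ habs U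
      simp only [hz] at h5
      have h6 : (2 * k : ℤ) + ({v | v ∈ U ∧ Odd (dd s t {v})} : Set V).ncard ≤ dd s t U := by
        exact_mod_cast h
      linarith
    · have h5 := abs_xs_le_card σ habs Uᶜ
      simp only [hz, Set.mem_compl_iff] at h5
      rw [hcomp, abs_neg] at h5
      have h6 : (2 * k : ℤ) + ({v | v ∉ U ∧ Odd (dd s t {v})} : Set V).ncard ≤ dd s t U := by
        exact_mod_cast h
      linarith
  refine ⟨O, fun U hU hUc hS => ?_⟩
  have hb : |xs σ U| ≤ dd s t U - 2 * k := by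
    rcases hS with hS | hS
    · exact key U hU hUc hS
    · have := key Uᶜ hUc (by rwa [compl_compl]) (fun a ha hc => ha (hS a hc))
      rw [hcomp, abs_neg, dd_compl] at this
      exact this
  have h5 := hO U
  have h6 := inn_add_compl s t O U
  have h7 := (abs_le.1 hb).2
  zify
  zify at h6
  linarith

end OS9e
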