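import Pool.Agent.Lib_MP_9e7d46_os.Trim

/-!
# The graph of a family of sides

`V` with a preorder `R`; at `v` there are `x v` elements, which may use (as head and tail) all nodes of the
vertices `u` with `R v u`; every vertex has `c` nodes; there are `ρ` further elements which may use all
nodes and the root. If every nonempty closed set `Z` has `x Z + 2 k ≤ 2 k c |Z|`, and the total number of
elements is `2 k c |V|`, then heads and tails can be chosen such that the result is a `Dig k`.
-/

set_option autoImplicit false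
set_option linter.unusedSectionVars false

namespace OS9e
open Finset Classical

variable {V : Type} [Fintype V]

/-- the elements -/
abbrev EE (x : V → ℕ) (ρ : ℕ) : Type := (Σ v, Fin (x v)) ⊕ Fin ρ

/-- the possible nodes of an element -/
noncomputable def NN (R : V → V → Prop) (x : V → ℕ) (ρ c : ℕ) :
    EE x ρ → Finset (Option (V × Fin c))
  | Sum.inl p => univ.filter fun q => ∃ w, q = some w ∧ R p.1 w.1
  | Sum.inr _ => univ

theorem mem_NN_inl {R : V → V → Prop} {x : V → ℕ} {ρ c : ℕ} {p : Σ v, Fin (x v)}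
    {q : Option (V × Fin c)} :
    q ∈ NN R x ρ c (Sum.inl p) ↔ ∃ w, q = some w ∧ R p.1 w.1 := by
  simp [NN]

theorem sum_EE {x : V → ℕ} {ρ : ℕ} (f : EE x ρ → ℕ) :
    ∑ e, f e = ∑ v, ∑ i : Fin (x v), f (Sum.inl ⟨v, i⟩) + ∑ j : Fin ρ, f (Sum.inr j) := by
  rw [Fintype.sum_sum_type, Fintype.sum_sigma]

theorem card_ins_le {R : V → V → Prop} (hr : ∀ v, R v v) (ht : ∀ u v w, R u v → R v w → R u w)
    {k c ρ : ℕ} {x : V → ℕ}
    (hcl : ∀ Z : Finset V, Z.Nonempty → (∀ u ∈ Z, ∀ v, R u v → v ∈ Z) →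
      ∑ v ∈ Z, x v + 2 * k ≤ 2 * k * (c * #Z))
    (Y : Finset (V × Fin c)) :
    #{e : EE x ρ | Ins (NN R x ρ c e) Y} ≤ 2 * k * (#Y - 1) := by
  let Z : Finset V := univ.filter fun v => ∀ w : V × Fin c, R v w.1 → w ∈ Y
  have h1 : #{e : EE x ρ | Ins (NN R x ρ c e) Y} ≤ ∑ v ∈ Z, x v := by
    rw [card_filter, sum_EE]
    have h2 : ∑ j : Fin ρ, (if Ins (NN R x ρ c (Sum.inr j)) Y then 1 else 0) = 0 := by
      refine sum_eq_zero fun j _ => ?_
      rw [if_neg]
      intro h
      obtain ⟨w, -, hw⟩ := h none (by simp [NN])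
      exact absurd hw (by simp)
    rw [h2, add_zero, ← sum_filter_add_sum_filter_not univ (fun v => v ∈ Z)]
    have h3 : ∑ v ∈ univ.filter (fun v => v ∉ Z),
        ∑ i : Fin (x v), (if Ins (NN R x ρ c (Sum.inl ⟨v, i⟩)) Y then 1 else 0) = 0 := by
      refine sum_eq_zero fun v hv => sum_eq_zero fun i _ => ?_
      rw [if_neg]
      intro h
      apply (mem_filter.1 hv).2
      rw [mem_filter]
      refine ⟨mem_univ _, fun w hw => ?_⟩
      obtain ⟨w', hw', he⟩ := h (some w) (mem_NN_inl.2 ⟨w, rfl, hw⟩)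
      rw [Option.some.injEq] at he
      rw [he]
      exact hw'
    rw [h3, add_zero]
    have h4 : univ.filter (fun v => v ∈ Z) = Z := by ext v; simp
    rw [h4]
    refine sum_le_sum fun v _ => ?_
    calc ∑ i : Fin (x v), (if Ins (NN R x ρ c (Sum.inl ⟨v, i⟩)) Y then 1 else 0)
        ≤ ∑ i : Fin (x v), 1 := sum_le_sum fun i _ => by split_ifs <;> omega
      _ = x v := by simp
  rcases Z.eq_empty_or_nonempty with hZ | hZ
  · rw [hZ, sum_empty] at h1
    omega
  · have h2 := hcl Z hZ (by
      intro u hu v huv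
      rw [mem_filter] at hu ⊢
      exact ⟨mem_univ _, fun w hw => hu.2 w (ht _ _ _ huv hw)⟩)
    have h3 : c * #Z ≤ #Y := by
      have : Z ×ˢ (univ : Finset (Fin c)) ⊆ Y := by
        intro w hw
        rw [mem_product] at hw
        exact (mem_filter.1 hw.1).2 w (hr _)
      have h4 := card_le_card this
      rw [card_product, card_univ, Fintype.card_fin] at h4
      rw [mul_comm]
      exact h4
    have h4 : 2 * k * (c * #Z) ≤ 2 * k * #Y := Nat.mul_le_mul_left _ h3
    have h5 : 2 * k * (#Y - 1) = 2 * k * #Y - 2 * k := by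
      rw [Nat.mul_sub, Nat.mul_one]
    omega

theorem card_EE {x : V → ℕ} {ρ : ℕ} : Fintype.card (EE x ρ) = ∑ v, x v + ρ := by
  rw [Fintype.card_sum, Fintype.card_sigma]
  simp

/-- the graph of the sides -/
theorem exists_dig {R : V → V → Prop} (hr : ∀ v, R v v) (ht : ∀ u v w, R u v → R v w → R u w)
    {k c ρ : ℕ} (hc : 0 < c) {x : V → ℕ}
    (hsum : ∑ v, x v + ρ = 2 * k * (c * Fintype.card V))
    (hcl : ∀ Z : Finset V, Z.Nonempty → (∀ u ∈ Z, ∀ v, R u v → v ∈ Z) →
      ∑ v ∈ Z, x v + 2 * k ≤ 2 * k * (c * #Z)) :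
    ∃ (h : EE x ρ → V × Fin c) (t : EE x ρ → Option (V × Fin c)), G3.Dig k h t ∧
      ∀ v (i : Fin (x v)), R v (h (Sum.inl ⟨v, i⟩)).1 ∧
        ∃ w, t (Sum.inl ⟨v, i⟩) = some w ∧ R v w.1 := by
  have hins := card_ins_le (ρ := ρ) hr ht hcl
  have hne : ∀ e, (univ.filter fun w => some w ∈ NN R x ρ c e).Nonempty := by
    rintro (⟨v, i⟩ | j)
    · exact ⟨(v, ⟨0, hc⟩), by simp [NN, hr]⟩
    · have : 0 < Fintype.card V := by
        rw [Nat.pos_iff_ne_zero]
        intro h0
        rw [h0, Nat.mul_zero, Nat.mul_zero] at hsum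
        have := j.2
        omega
      obtain ⟨v⟩ := Fintype.card_pos_iff.1 this
      exact ⟨(v, ⟨0, hc⟩), by simp [NN]⟩
  -- heads
  let T : EE x ρ → Finset ((V × Fin c) × Fin (2 * k)) := fun e =>
    (univ.filter fun w => some w ∈ NN R x ρ c e) ×ˢ univ
  have hall : ∀ s : Finset (EE x ρ), #s ≤ #(s.biUnion T) := by
    intro s
    let Y : Finset (V × Fin c) := s.biUnion fun e => univ.filter fun w => some w ∈ NN R x ρ c e
    have hY : s.biUnion T = Y ×ˢ univ := by
      ext p
      simp only [T, Y, mem_biUnion, mem_product, mem_univ, and_true]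
    have hcard : #(s.biUnion T) = 2 * k * #Y := by
      rw [hY, card_product, card_univ, Fintype.card_fin, mul_comm]
    rw [hcard]
    by_cases hroot : ∃ j, Sum.inr j ∈ s
    · obtain ⟨j, hj⟩ := hroot
      have hYu : Y = univ := by
        ext w
        simp only [Y, mem_biUnion, mem_univ, iff_true]
        exact ⟨_, hj, by simp [NN]⟩
      rw [hYu, card_univ, Fintype.card_prod, Fintype.card_fin]
      refine (card_le_univ s).trans ?_
      rw [card_EE, hsum, mul_comm c]
    · have hsub : s ⊆ univ.filter (fun e => Ins (NN R x ρ c e) Y) := by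
        intro e he
        rw [mem_filter]
        refine ⟨mem_univ _, fun q hq => ?_⟩
        rcases e with p | j
        · obtain ⟨w, rfl, hw⟩ := mem_NN_inl.1 hq
          refine ⟨w, ?_, rfl⟩
          rw [mem_biUnion]
          exact ⟨_, he, by rw [mem_filter]; exact ⟨mem_univ _, hq⟩⟩
        · exact absurd ⟨j, he⟩ hroot
      refine (card_le_card hsub).trans ((hins Y).trans ?_)
      exact Nat.mul_le_mul_left _ (Nat.sub_le _ _)
  obtain ⟨f, hfi, hfT⟩ := (all_card_le_biUnion_card_iff_exists_injective T).1 hall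
  have hcardE : Fintype.card (EE x ρ) = Fintype.card ((V × Fin c) × Fin (2 * k)) := by
    rw [card_EE, hsum]
    simp only [Fintype.card_prod, Fintype.card_fin]
    ring
  have hbij : Function.Bijective f := (Fintype.bijective_iff_injective_and_card f).2 ⟨hfi, hcardE⟩
  let h : EE x ρ → V × Fin c := fun e => (f e).1
  have hhN : ∀ e, some (h e) ∈ NN R x ρ c e := by
    intro e
    have := hfT e
    simp only [T, mem_product, mem_filter, mem_univ, true_and, and_true] at this
    exact this
  have hdeg : ∀ w, #{e | h e = w} = 2 * k := by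
    intro w
    have : (univ.filter fun e => h e = w).image f = univ.filter (fun p => p.1 = w) := by
      ext p
      simp only [mem_image, mem_filter, mem_univ, true_and]
      constructor
      · rintro ⟨e, he, rfl⟩
        exact he
      · intro hp
        obtain ⟨e, rfl⟩ := hbij.2 p
        exact ⟨e, hp, rfl⟩
    rw [← card_image_of_injective _ hfi, this]
    have h2 : (univ.filter fun p : (V × Fin c) × Fin (2 * k) => p.1 = w) = {w} ×ˢ univ := by
      ext p
      simp only [mem_filter, mem_univ, true_and, mem_product, mem_singleton, and_true]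
    rw [h2, card_product, card_singleton, card_univ, Fintype.card_fin, one_mul]
  have hdegY : ∀ Y : Finset (V × Fin c), #{e | h e ∈ Y} = 2 * k * #Y := by
    intro Y
    rw [card_eq_sum_card_fiberwise (f := h) (s := {e | h e ∈ Y}) (t := Y)
      (fun e he => (mem_filter.1 (mem_coe.1 he)).2)]
    rw [sum_congr rfl (g := fun _ => 2 * k), sum_const, smul_eq_mul, mul_comm]
    intro w hw
    rw [filter_filter, ← hdeg w]
    congr 1
    refine filter_congr fun e _ => ?_
    exact ⟨fun hh => hh.2, fun hh => ⟨hh ▸ hw, hh⟩⟩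
  -- tails
  obtain ⟨t, ht1, ht2⟩ := trim (2 * k) h (NN R x ρ c) (by
    intro e
    exact ⟨_, hhN e⟩) (by
    intro Y hY
    have h1 : ∑ e, ind (h e) (NN R x ρ c e) Y = #{e | h e ∈ Y ∧ ¬ Ins (NN R x ρ c e) Y} := by
      rw [card_filter]
      rfl
    have h2 : #{e | h e ∈ Y} ≤ #{e | h e ∈ Y ∧ ¬ Ins (NN R x ρ c e) Y} +
        #{e | Ins (NN R x ρ c e) Y} := by
      rw [← filter_filter]
      have := card_filter_add_card_filter_not (s := univ.filter fun e => h e ∈ Y)
        (fun e => Ins (NN R x ρ c e) Y)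
      have h3 : #((univ.filter fun e => h e ∈ Y).filter (fun e => Ins (NN R x ρ c e) Y)) ≤
          #{e | Ins (NN R x ρ c e) Y} := card_le_card (filter_subset_filter _ (subset_univ _))
      omega
    have h3 := hins Y
    have h4 := hdegY Y
    have h5 : 2 * k * (#Y - 1) = 2 * k * #Y - 2 * k := by
      rw [Nat.mul_sub, Nat.mul_one]
    have h6 : 2 * k ≤ 2 * k * #Y := Nat.le_mul_of_pos_right _ hY.card_pos
    omega)
  refine ⟨h, t, ⟨hdeg, ht2⟩, fun v i => ⟨?_, ?_⟩⟩
  · obtain ⟨w, hw, hR⟩ := mem_NN_inl.1 (hhN (Sum.inl ⟨v, i⟩))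
    rw [Option.some.injEq] at hw
    rw [hw]
    exact hR
  · exact mem_NN_inl.1 (ht1 (Sum.inl ⟨v, i⟩))

end OS9e
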