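import Mathlib

/-!
# Fixed point free involutions preserving cells
-/

set_option autoImplicit false

namespace OS9e
open Finset Classical

theorem exists_fpf {X : Type*} [Fintype X] (h : Even (Fintype.card X)) :
    ∃ Q : X → X, (∀ x, Q (Q x) = x) ∧ ∀ x, Q x ≠ x := by
  obtain ⟨m, hm⟩ := h
  have e : X ≃ Fin m ⊕ Fin m := Fintype.equivOfCardEq (by
    rw [hm, Fintype.card_sum, Fintype.card_fin])
  refine ⟨fun x => e.symm (e x).swap, fun x => ?_, fun x hx => ?_⟩
  · simp
  · have h1 : (e x).swap = e x := by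
      rw [Equiv.symm_apply_eq] at hx
      exact hx
    rcases h2 : e x with a | a
    · rw [h2] at h1
      exact absurd h1 (by simp)
    · rw [h2] at h1
      exact absurd h1 (by simp)

/-- if all cells are even, there is a fixed point free involution preserving the cells -/
theorem exists_invol_cells {E C : Type*} [Fintype E] (κ : E → C)
    (h : ∀ c, Even #{e | κ e = c}) :
    ∃ P : E → E, (∀ e, P (P e) = e) ∧ (∀ e, P e ≠ e) ∧ ∀ e, κ (P e) = κ e := by
  have h1 : ∀ c, ∃ Q : {e // κ e = c} → {e // κ e = c}, (∀ x, Q (Q x) = x) ∧ ∀ x, Q x ≠ x := by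
    intro c
    apply exists_fpf
    rw [Fintype.card_subtype]
    exact h c
  choose Q hQ1 hQ2 using h1
  have hc : ∀ (c : C) (a : {e // κ e = c}), (Q (κ a.1) ⟨a.1, rfl⟩).1 = (Q c a).1 := by
    rintro c ⟨a, rfl⟩
    rfl
  refine ⟨fun e => (Q (κ e) ⟨e, rfl⟩).1, fun e => ?_, fun e he => ?_, fun e => ?_⟩
  · have := hc (κ e) (Q (κ e) ⟨e, rfl⟩)
    rw [hQ1] at this
    exact this
  · exact hQ2 (κ e) ⟨e, rfl⟩ (Subtype.ext he)
  · exact (Q (κ e) ⟨e, rfl⟩).2

/-- an involution without fixed points on a finite set -/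
theorem even_of_invol {X : Type*} (s : Finset X) (μ : X → X) (h1 : ∀ x ∈ s, μ (μ x) = x)
    (h2 : ∀ x ∈ s, μ x ∈ s) (h3 : ∀ x ∈ s, μ x ≠ x) : Even #s := by
  have h : ∑ x ∈ s, (1 : ZMod 2) = 0 := by
    refine sum_involution (fun x _ => μ x) (fun x _ => ?_) (fun x hx _ => h3 x hx)
      (fun x hx => h2 x hx) (fun x hx => h1 x hx)
    decide
  rw [sum_const, nsmul_eq_mul, mul_one] at h
  rw [even_iff_two_dvd]
  exact (ZMod.natCast_eq_zero_iff _ _).1 h

end OS9e
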