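import Pool.Agent.Lib_MP_9e7d46_os.Main

/-!
# Contraction of the strong components
-/

set_option autoImplicit false
set_option linter.unusedSectionVars false

namespace OS9e
open Finset Classical Pool.Agent.DJ9e

variable {V A : Type} [Fintype V] [Fintype A]

/-- the strong component of `v` -/
def comp (s t : A → V) (v : V) : Set V := {w | Rch s t v w ∧ Rch s t w v}

/-- mutual reachability -/
def scS (s t : A → V) : Setoid V where
  r u v := Rch s t u v ∧ Rch s t v u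
  iseqv := ⟨fun _ => ⟨Relation.ReflTransGen.refl, Relation.ReflTransGen.refl⟩,
    fun h => ⟨h.2, h.1⟩,
    fun h1 h2 => ⟨Relation.ReflTransGen.trans h1.1 h2.1, Relation.ReflTransGen.trans h2.2 h1.2⟩⟩

/-- the vertices of the condensation -/
abbrev QV (s t : A → V) : Type := Quotient (scS s t)

/-- the contraction map -/
def qm (s t : A → V) : V → QV s t := Quotient.mk _

noncomputable instance (s t : A → V) : Fintype (QV s t) := Fintype.ofFinite _

variable (s t : A → V)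

theorem qm_eq {u v : V} : qm s t u = qm s t v ↔ Rch s t u v ∧ Rch s t v u :=
  Quotient.eq (r := scS s t)

theorem qm_surj : Function.Surjective (qm s t) := Quotient.mk_surjective

theorem fiber (v : V) : qm s t ⁻¹' {qm s t v} = comp s t v := by
  ext w
  rw [Set.mem_preimage, Set.mem_singleton_iff, qm_eq]
  exact and_comm

theorem sat_of_noIn {U : Set V} (h : NoIn s t U) {v w : V} (hvw : qm s t v = qm s t w)
    (hw : w ∈ U) : v ∈ U := closed_of_noIn h hw ((qm_eq s t).1 hvw).1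

theorem sat_of_noOut {U : Set V} (h : NoOut s t U) {v w : V} (hvw : qm s t v = qm s t w)
    (hw : w ∈ U) : v ∈ U := closed_of_noOut h hw ((qm_eq s t).1 hvw).2

theorem rch_of_q {u v : V} (h : Rch (qm s t ∘ s) (qm s t ∘ t) (qm s t u) (qm s t v)) :
    Rch s t u v := by
  have key : ∀ x, Rch (qm s t ∘ s) (qm s t ∘ t) (qm s t u) x → ∀ w, qm s t w = x →
      Rch s t u w := by
    intro x hx
    unfold Rch at hx
    induction hx with
    | refl =>
      intro w hw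
      exact ((qm_eq s t).1 hw).2
    | tail _ hbc ih =>
      obtain ⟨a, ha, ha'⟩ := hbc
      intro w hw
      have h1 := ih (s a) ha
      have h2 : Rch s t u (t a) := Relation.ReflTransGen.tail h1 ⟨a, rfl, rfl⟩
      have h3 : qm s t (t a) = qm s t w := by
        rw [hw]
        exact ha'
      exact Relation.ReflTransGen.trans h2 ((qm_eq s t).1 h3).1
  exact key _ h v rfl

theorem q_of_rch {u v : V} (h : Rch s t u v) :
    Rch (qm s t ∘ s) (qm s t ∘ t) (qm s t u) (qm s t v) := by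
  unfold Rch at h
  induction h with
  | refl => exact Relation.ReflTransGen.refl
  | tail _ hbc ih =>
    obtain ⟨a, rfl, rfl⟩ := hbc
    exact Relation.ReflTransGen.tail ih ⟨a, rfl, rfl⟩

theorem q_acyclic (x y : QV s t) (h1 : Rch (qm s t ∘ s) (qm s t ∘ t) x y)
    (h2 : Rch (qm s t ∘ s) (qm s t ∘ t) y x) : x = y := by
  obtain ⟨u, rfl⟩ := qm_surj s t x
  obtain ⟨v, rfl⟩ := qm_surj s t y
  exact (qm_eq s t).2 ⟨rch_of_q s t h1, rch_of_q s t h2⟩

/-- it suffices to orient the condensation -/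
theorem orient_of_quot {k : ℕ} (h : ∃ O : A → Bool, ∀ U : Set (QV s t), U.Nonempty →
    Uᶜ.Nonempty → Sh (qm s t ∘ s) (qm s t ∘ t) U → k ≤ inn (qm s t ∘ s) (qm s t ∘ t) O U) :
    ∃ O : A → Bool, ∀ U : Set V, U.Nonempty → Uᶜ.Nonempty → Sh s t U → k ≤ inn s t O U := by
  obtain ⟨O, hO⟩ := h
  refine ⟨O, fun U hU hUc hS => ?_⟩
  have hsat : ∀ v w, qm s t v = qm s t w → w ∈ U → v ∈ U := by
    intro v w hvw hw
    rcases hS with hS | hS
    · exact sat_of_noIn s t hS hvw hw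
    · exact sat_of_noOut s t hS hvw hw
  have hpre : qm s t ⁻¹' (qm s t '' U) = U := by
    ext v
    constructor
    · rintro ⟨w, hw, hwv⟩
      exact hsat v w hwv.symm hw
    · exact fun hv => ⟨v, hv, rfl⟩
  have h1 := hO (qm s t '' U) (hU.image _) (by
    obtain ⟨v, hv⟩ := hUc
    refine ⟨qm s t v, ?_⟩
    rintro ⟨w, hw, hwv⟩
    exact hv (hsat v w hwv.symm hw)) (by
    rw [Sh_comp, hpre]
    exact hS)
  rw [inn_comp, hpre] at h1
  exact h1

/-- number of strong components inside `U` which are crossed by an odd number of arcs -/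
noncomputable def oddc (U : Set V) : ℕ :=
  ({C | ∃ v ∈ U, C = comp s t v ∧ Odd (dd s t C)} : Set (Set V)).ncard

theorem oddc_ge (U : Set (QV s t)) :
    ({x | x ∈ U ∧ Odd (dd (qm s t ∘ s) (qm s t ∘ t) {x})} : Set (QV s t)).ncard ≤
      oddc s t (qm s t ⁻¹' U) := by
  unfold oddc
  refine Set.ncard_le_ncard_of_injOn (fun x => qm s t ⁻¹' {x}) ?_ ?_ (Set.toFinite _)
  · rintro x ⟨hx, ho⟩
    obtain ⟨v, rfl⟩ := qm_surj s t x
    refine ⟨v, hx, fiber s t v, ?_⟩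
    rw [dd_comp] at ho
    exact ho
  · intro x _ y _ hxy
    obtain ⟨v, rfl⟩ := qm_surj s t x
    have hxy' : qm s t ⁻¹' {qm s t v} = qm s t ⁻¹' {y} := hxy
    have : v ∈ qm s t ⁻¹' {y} := by
      rw [← hxy']
      rfl
    exact this

/-- the general theorem in terms of the strong components -/
theorem gen_quot {k : ℕ} (hk : 3 ≤ k) (N : Set V)
    (hd : ∀ U : Set V, U.Nonempty → Uᶜ.Nonempty → NoIn s t U → 2 * k ≤ dd s t U)
    (hN : ∀ X : Set V, (∀ v w, w ∈ comp s t v → (v ∈ X ↔ w ∈ X)) → NSep N X → 2 * k ≤ dd s t X)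
    {ι : Type} [Fintype ι] (S : ι → Set V) (typ : ι → Bool) (B : ι → Set V)
    (hS2 : ∀ i, typ i = true → NoOut s t (S i)) (hS3 : ∀ i, typ i = false → NoIn s t (S i))
    (hBS : ∀ i, B i ⊆ S i) (hBc : ∀ i, ∀ v w, w ∈ comp s t v → (v ∈ B i ↔ w ∈ B i))
    (huniq : ∀ v, Odd (dd s t (comp s t v)) → ∀ i j, v ∈ B i → v ∈ B j → i = j)
    (hher : ∀ i, ∀ Z : Set V, Z.Nonempty → Z ⊆ S i → (typ i = true → NoOut s t Z) →
      (typ i = false → NoIn s t Z) → 2 * k + oddc s t (Z \ B i) ≤ dd s t Z)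
    (hcov : ∀ U : Set V, U.Nonempty → Uᶜ.Nonempty → NoIn s t U →
      NSep N U ∨ (∃ i, typ i = false ∧ U ⊆ S i) ∨
      (∃ i, typ i = true ∧ Uᶜ ⊆ S i) ∨
      2 * k + oddc s t U ≤ dd s t U ∨ 2 * k + oddc s t Uᶜ ≤ dd s t U) :
    ∃ O : A → Bool, ∀ U : Set V, U.Nonempty → Uᶜ.Nonempty → Sh s t U → k ≤ inn s t O U := by
  apply orient_of_quot
  have hne : ∀ U : Set (QV s t), U.Nonempty → (qm s t ⁻¹' U).Nonempty := fun U hU =>
    hU.preimage (qm_surj s t)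
  have hsat : ∀ i v w, qm s t v = qm s t w → w ∈ S i → v ∈ S i := by
    intro i v w hvw hw
    cases hi : typ i
    · exact sat_of_noIn s t (hS3 i hi) hvw hw
    · exact sat_of_noOut s t (hS2 i hi) hvw hw
  have hBsat : ∀ i v w, qm s t v = qm s t w → w ∈ B i → v ∈ B i := by
    intro i v w hvw hw
    exact (hBc i v w ((qm_eq s t).1 hvw)).2 hw
  have hBpre : ∀ i, qm s t ⁻¹' (qm s t '' B i) = B i := by
    intro i
    ext v
    exact ⟨fun ⟨w, hw, hwv⟩ => hBsat i v w hwv.symm hw, fun hv => ⟨v, hv, rfl⟩⟩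
  refine gen hk (qm s t ∘ s) (qm s t ∘ t) (qm s t '' N) ?_ ?_ (fun i => qm s t '' S i) typ
    (fun i => qm s t '' B i) ?_ ?_ ?_ ?_ ?_ ?_
  · intro U hU hUc hin
    rw [dd_comp]
    exact hd _ (hne U hU) (by rw [← Set.preimage_compl]; exact hne _ hUc) hin
  · rintro U ⟨⟨_, ⟨n, hn, rfl⟩, hnU⟩, ⟨_, ⟨m, hm, rfl⟩, hmU⟩⟩
    rw [dd_comp]
    refine hN _ ?_ ⟨⟨n, hn, hnU⟩, ⟨m, hm, hmU⟩⟩
    intro v w hw
    have : qm s t v = qm s t w := (qm_eq s t).2 hw
    rw [Set.mem_preimage, Set.mem_preimage, this]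
  · rintro i hi a ⟨w, hw, hwa⟩
    exact ⟨t a, hS2 i hi a (hsat i _ w hwa.symm hw), rfl⟩
  · rintro i hi a ⟨w, hw, hwa⟩
    exact ⟨s a, hS3 i hi a (hsat i _ w hwa.symm hw), rfl⟩
  · exact fun i => Set.image_mono (hBS i)
  · intro x hx i j hi hj
    obtain ⟨v, rfl⟩ := qm_surj s t x
    rw [dd_comp, fiber] at hx
    obtain ⟨w, hw, hwv⟩ := hi
    obtain ⟨w', hw', hwv'⟩ := hj
    exact huniq v hx i j (hBsat i v w hwv.symm hw) (hBsat j v w' hwv'.symm hw')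
  · intro i Z hZ hZS h1 h2
    have h3 := hher i (qm s t ⁻¹' Z) (hne Z hZ) (by
      intro v hv
      obtain ⟨w, hw, hwv⟩ := hZS hv
      exact hsat i v w hwv.symm hw) h1 h2
    have h4 := oddc_ge s t (Z \ (qm s t '' B i))
    rw [Set.preimage_sdiff, hBpre] at h4
    have h5 : ({v | v ∈ Z ∧ (Odd (dd (qm s t ∘ s) (qm s t ∘ t) {v}) ∧ v ∉ qm s t '' B i)} :
        Set (QV s t)) = {x | x ∈ Z \ (qm s t '' B i) ∧
          Odd (dd (qm s t ∘ s) (qm s t ∘ t) {x})} := by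
      ext x
      simp only [Set.mem_ofPred_eq, Set.mem_sdiff]
      tauto
    rw [h5, dd_comp]
    omega
  · intro U hU hUc hin
    have hc : (qm s t ⁻¹' U)ᶜ = qm s t ⁻¹' Uᶜ := rfl
    rcases hcov (qm s t ⁻¹' U) (hne U hU) (by rw [hc]; exact hne _ hUc) hin with
      ⟨⟨n, hn, hnU⟩, ⟨m, hm, hmU⟩⟩ | ⟨i, hi, h⟩ | ⟨i, hi, h⟩ | h | h
    · exact Or.inl ⟨⟨_, ⟨n, hn, rfl⟩, hnU⟩, ⟨_, ⟨m, hm, rfl⟩, hmU⟩⟩
    · refine Or.inr (Or.inl ⟨i, hi, ?_⟩)
      intro x hx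
      obtain ⟨v, rfl⟩ := qm_surj s t x
      exact ⟨v, h hx, rfl⟩
    · refine Or.inr (Or.inr (Or.inl ⟨i, hi, ?_⟩))
      intro x hx
      obtain ⟨v, rfl⟩ := qm_surj s t x
      exact ⟨v, h hx, rfl⟩
    · refine Or.inr (Or.inr (Or.inr (Or.inl ?_)))
      rw [dd_comp]
      have := oddc_ge s t U
      omega
    · refine Or.inr (Or.inr (Or.inr (Or.inr ?_)))
      rw [dd_comp]
      have := oddc_ge s t Uᶜ
      rw [hc] at h
      have h2 : ({x | x ∉ U ∧ Odd (dd (qm s t ∘ s) (qm s t ∘ t) {x})} : Set (QV s t)) =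
          {x | x ∈ Uᶜ ∧ Odd (dd (qm s t ∘ s) (qm s t ∘ t) {x})} := rfl
      rw [h2]
      omega

theorem bb_quot (v : V) : bb (qm s t ∘ s) (qm s t ∘ t) (qm s t v) = xs (bb s t) (comp s t v) := by
  rw [xs_bb]
  unfold bb
  refine sum_congr rfl fun a _ => ?_
  have h : ∀ w, (qm s t w = qm s t v) ↔ w ∈ comp s t v := by
    intro w
    rw [← fiber]
    rfl
  simp only [Function.comp, h]

theorem hub_quot {k : ℕ} (hk : 3 ≤ k) (R : Set V) (hR : R.Nonempty)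
    (hd : ∀ U : Set V, U.Nonempty → Uᶜ.Nonempty → NoIn s t U → 2 * k ≤ dd s t U)
    (hN : ∀ X : Set V, (∀ v w, w ∈ comp s t v → (v ∈ X ↔ w ∈ X)) → NSep R X → 2 * k ≤ dd s t X)
    (hhub : ∀ v, xs (bb s t) (comp s t v) < 0 → ∃ r ∈ R, Rch s t r v) :
    ∃ O : A → Bool, ∀ U : Set V, U.Nonempty → Uᶜ.Nonempty → Sh s t U → k ≤ inn s t O U := by
  apply orient_of_quot
  have hne : ∀ U : Set (QV s t), U.Nonempty → (qm s t ⁻¹' U).Nonempty := fun U hU =>
    hU.preimage (qm_surj s t)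
  refine hub hk (qm s t ∘ s) (qm s t ∘ t) (qm s t '' R) (hR.image _) ?_ (q_acyclic s t) ?_ ?_
  · intro U hU hUc hin
    rw [dd_comp]
    exact hd _ (hne U hU) (by rw [← Set.preimage_compl]; exact hne _ hUc) hin
  · rintro U ⟨⟨_, ⟨n, hn, rfl⟩, hnU⟩, ⟨_, ⟨m, hm, rfl⟩, hmU⟩⟩
    rw [dd_comp]
    refine hN _ ?_ ⟨⟨n, hn, hnU⟩, ⟨m, hm, hmU⟩⟩
    intro v w hw
    have : qm s t v = qm s t w := (qm_eq s t).2 hw
    rw [Set.mem_preimage, Set.mem_preimage, this]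
  · intro x hx
    obtain ⟨v, rfl⟩ := qm_surj s t x
    rw [bb_quot] at hx
    obtain ⟨r, hr, h⟩ := hhub v hx
    exact ⟨_, ⟨r, hr, rfl⟩, q_of_rch s t h⟩

theorem hub_odd_quot {k : ℕ} (hk : 3 ≤ k) (R : Set V) (hR : R.Nonempty)
    (hd : ∀ U : Set V, U.Nonempty → Uᶜ.Nonempty → NoIn s t U → 2 * k ≤ dd s t U)
    (hN : ∀ X : Set V, (∀ v w, w ∈ comp s t v → (v ∈ X ↔ w ∈ X)) → NSep R X → 2 * k ≤ dd s t X)
    (hhub : ∀ v, Odd (dd s t (comp s t v)) → ∃ r ∈ R, Rch s t r v ∨ Rch s t v r) :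
    ∃ O : A → Bool, ∀ U : Set V, U.Nonempty → Uᶜ.Nonempty → Sh s t U → k ≤ inn s t O U := by
  apply orient_of_quot
  have hne : ∀ U : Set (QV s t), U.Nonempty → (qm s t ⁻¹' U).Nonempty := fun U hU =>
    hU.preimage (qm_surj s t)
  refine hub_odd hk (qm s t ∘ s) (qm s t ∘ t) (qm s t '' R) (hR.image _) ?_ ?_ ?_
  · intro U hU hUc hin
    rw [dd_comp]
    exact hd _ (hne U hU) (by rw [← Set.preimage_compl]; exact hne _ hUc) hin
  · rintro U ⟨⟨_, ⟨n, hn, rfl⟩, hnU⟩, ⟨_, ⟨m, hm, rfl⟩, hmU⟩⟩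
    rw [dd_comp]
    refine hN _ ?_ ⟨⟨n, hn, hnU⟩, ⟨m, hm, hmU⟩⟩
    intro v w hw
    have : qm s t v = qm s t w := (qm_eq s t).2 hw
    rw [Set.mem_preimage, Set.mem_preimage, this]
  · intro x hx
    obtain ⟨v, rfl⟩ := qm_surj s t x
    rw [dd_comp, fiber] at hx
    obtain ⟨r, hr, h⟩ := hhub v hx
    refine ⟨_, ⟨r, hr, rfl⟩, ?_⟩
    rcases h with h | h
    · exact Or.inl (q_of_rch s t h)
    · exact Or.inr (q_of_rch s t h)

end OS9e
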