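import Pool.Agent.Lib_MP_9e7d46_os.Slot
import Pool.Agent.Lib_MP_9e7d46_co.Orient

/-!
# Signs for a family of sides

`S i` are sets of vertices, closed under the preorder `R i`; `A i` is the set of vertices of `S i` which are
assigned to `i`; every odd vertex (`μ v ≠ v`) is in at most one `A i`. There is a sign vector `σ` with
`σ (μ v) = - σ v` which satisfies `|σ (Z ∩ A i)| ≤ -y_i(Z) - 2k` for all nonempty sets `Z ⊆ S i` closed
under `R i`.
-/

set_option autoImplicit false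
set_option linter.unusedSectionVars false

namespace OS9e
open Finset Classical Pool.Agent.DJ9e

variable {V : Type} [Fintype V]

theorem xs_eq_sum (x : V → ℤ) (U : Set V) : xs x U = ∑ v ∈ univ.filter (fun v => v ∈ U), x v := by
  unfold xs
  rw [sum_filter]

/-- general antisymmetric sign vectors -/
theorem abs_xs_le (μ : V → V) (hi : ∀ u, μ (μ u) = u) (σ : V → ℤ) (h1 : ∀ v, σ (μ v) = - σ v)
    (h2 : ∀ v, |σ v| ≤ 1) (U : Set V) : |xs σ U| ≤ dM μ U := by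
  have key : xs σ U = ∑ u, (if (u ∈ U ∧ μ u ∉ U) then σ u else 0) := by
    unfold xs
    have e1 : ∀ u, (if u ∈ U then σ u else 0) =
        (if (u ∈ U ∧ μ u ∉ U) then σ u else 0) + (if (u ∈ U ∧ μ u ∈ U) then σ u else 0) := by
      intro u
      by_cases h1 : u ∈ U <;> by_cases h2 : μ u ∈ U <;> simp [h1, h2]
    have e2 : ∑ u, (if (u ∈ U ∧ μ u ∈ U) then σ u else 0) = 0 := by
      have e3 : ∑ u, (if (u ∈ U ∧ μ u ∈ U) then σ u else 0)
          = ∑ u, (if (μ u ∈ U ∧ μ (μ u) ∈ U) then σ (μ u) else 0) := by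
        symm
        exact Fintype.sum_bijective μ (Function.Involutive.bijective hi) _ _ (fun _ => rfl)
      have e4 : ∑ u, (if (μ u ∈ U ∧ μ (μ u) ∈ U) then σ (μ u) else 0)
          = - ∑ u, (if (u ∈ U ∧ μ u ∈ U) then σ u else 0) := by
        rw [← sum_neg_distrib]
        refine sum_congr rfl fun u _ => ?_
        rw [hi, h1]
        by_cases h1 : u ∈ U <;> by_cases h2 : μ u ∈ U <;> simp [h1, h2]
      linarith
    rw [sum_congr rfl fun u _ => e1 u, sum_add_distrib, e2, add_zero]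
  rw [key]
  refine (abs_sum_le_sum_abs _ _).trans ?_
  unfold dM
  push_cast
  refine sum_le_sum fun u _ => ?_
  by_cases h3 : u ∈ U ∧ μ u ∉ U
  · rw [if_pos h3, if_pos h3]
    exact h2 u
  · rw [if_neg h3, if_neg h3]
    simp

theorem sides {k : ℕ} (hk : 3 ≤ k) {ι : Type} [Fintype ι] (S : ι → Set V) (R : ι → V → V → Prop)
    (hr : ∀ i v, R i v v) (ht : ∀ i u v w, R i u v → R i v w → R i u w) (y : ι → V → ℤ)
    (hS : ∀ i, ∀ u ∈ S i, ∀ v, R i u v → v ∈ S i)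
    (hy : ∀ i, ∀ Z : Set V, Z.Nonempty → Z ⊆ S i → (∀ u ∈ Z, ∀ v, R i u v → v ∈ Z) →
      xs (y i) Z ≤ -(2 * k : ℤ))
    (μ : V → V) (hμ : ∀ v, μ (μ v) = v) (A : ι → Set V) (hAS : ∀ i, A i ⊆ S i)
    (hodd : ∀ i v, v ∈ S i → (Odd (y i v) ↔ μ v ≠ v ∧ v ∈ A i))
    (huniq : ∀ v, μ v ≠ v → ∀ i j, v ∈ A i → v ∈ A j → i = j) :
    ∃ σ : V → ℤ, (∀ v, σ (μ v) = - σ v) ∧ (∀ v, μ v ≠ v → σ v = 1 ∨ σ v = -1) ∧
      (∀ v, μ v = v → σ v = 0) ∧
      ∀ i, ∀ Z : Set V, Z.Nonempty → Z ⊆ S i → (∀ u ∈ Z, ∀ v, R i u v → v ∈ Z) →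
        |xs (fun v => if v ∈ A i then σ v else 0) Z| ≤ - xs (y i) Z - 2 * k := by
  -- the combined system
  let R' : ι × V → ι × V → Prop := fun p q =>
    p = q ∨ (p.1 = q.1 ∧ p.2 ∈ S p.1 ∧ q.2 ∈ S p.1 ∧ R p.1 p.2 q.2)
  let y' : ι × V → ℤ := fun p => if p.2 ∈ S p.1 then y p.1 p.2 else -(2 * k : ℤ)
  have hr' : ∀ p, R' p p := fun p => Or.inl rfl
  have ht' : ∀ p q r, R' p q → R' q r → R' p r := by
    rintro p q r (rfl | ⟨h1, h2, h3, h4⟩) h5
    · exact h5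
    · rcases h5 with rfl | ⟨g1, g2, g3, g4⟩
      · exact Or.inr ⟨h1, h2, h3, h4⟩
      · refine Or.inr ⟨h1.trans g1, h2, ?_, ?_⟩
        · rw [h1]; exact g3
        · rw [h1] at h4 ⊢
          exact ht _ _ _ _ h4 g4
  -- closed sets of the combined system
  have hZi : ∀ Z : Finset (ι × V), (∀ p ∈ Z, ∀ q, R' p q → q ∈ Z) → ∀ i,
      ∀ u ∈ {v | v ∈ S i ∧ (i, v) ∈ Z}, ∀ v, R i u v → v ∈ {v | v ∈ S i ∧ (i, v) ∈ Z} := by
    intro Z hZ i u hu v huv
    have hv := hS i u hu.1 v huv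
    exact ⟨hv, hZ _ hu.2 (i, v) (Or.inr ⟨rfl, hu.1, hv, huv⟩)⟩
  have hsumZ : ∀ Z : Finset (ι × V), ∑ p ∈ Z, y' p =
      ∑ i, (xs (y i) {v | v ∈ S i ∧ (i, v) ∈ Z} -
        2 * k * #{v | v ∉ S i ∧ (i, v) ∈ Z}) := by
    intro Z
    have e1 : ∑ p ∈ Z, y' p = ∑ p : ι × V, if p ∈ Z then y' p else 0 := by
      rw [← sum_filter]
      congr 1
      ext p
      simp
    rw [e1, Fintype.sum_prod_type]
    refine sum_congr rfl fun i _ => ?_
    have e2 : (2 * k * #{v | v ∉ S i ∧ (i, v) ∈ Z} : ℤ) =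
        ∑ v, if v ∉ S i ∧ (i, v) ∈ Z then (2 * k : ℤ) else 0 := by
      rw [← sum_filter, sum_const, nsmul_eq_mul]
      ring
    rw [e2]
    unfold xs
    rw [← sum_sub_distrib]
    refine sum_congr rfl fun v _ => ?_
    simp only [y', Set.mem_ofPred_eq]
    by_cases a1 : v ∈ S i <;> by_cases a2 : (i, v) ∈ Z <;> simp [a1, a2]
  have hy' : ∀ Z : Finset (ι × V), Z.Nonempty → (∀ p ∈ Z, ∀ q, R' p q → q ∈ Z) →
      ∑ p ∈ Z, y' p ≤ -(2 * k : ℤ) := by
    intro Z hZ hZc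
    rw [hsumZ Z]
    have hle : ∀ i, xs (y i) {v | v ∈ S i ∧ (i, v) ∈ Z} -
        2 * k * #{v | v ∉ S i ∧ (i, v) ∈ Z} ≤ 0 ∧ ((∃ v, (i, v) ∈ Z) →
        xs (y i) {v | v ∈ S i ∧ (i, v) ∈ Z} -
        2 * k * #{v | v ∉ S i ∧ (i, v) ∈ Z} ≤ -(2 * k : ℤ)) := by
      intro i
      have n1 : (0 : ℤ) ≤ 2 * k * #{v | v ∉ S i ∧ (i, v) ∈ Z} := by positivity
      have n0 : (0 : ℤ) ≤ 2 * k := by positivity
      rcases ({v | v ∈ S i ∧ (i, v) ∈ Z} : Set V).eq_empty_or_nonempty with h0 | h0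
      · have e0 : xs (y i) {v | v ∈ S i ∧ (i, v) ∈ Z} = 0 := by
          rw [h0]
          unfold xs
          simp
        rw [e0]
        refine ⟨by linarith, ?_⟩
        rintro ⟨v, hv⟩
        have hvS : v ∉ S i := by
          intro hvS
          have : v ∈ ({v | v ∈ S i ∧ (i, v) ∈ Z} : Set V) := ⟨hvS, hv⟩
          rw [h0] at this
          exact this
        have hpos : 1 ≤ #{v | v ∉ S i ∧ (i, v) ∈ Z} :=
          card_pos.2 ⟨v, by simp [hvS, hv]⟩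
        have hpos' : (1 : ℤ) ≤ #{v | v ∉ S i ∧ (i, v) ∈ Z} := by exact_mod_cast hpos
        nlinarith
      · have h1 := hy i _ h0 (fun v hv => hv.1) (hZi Z hZc i)
        exact ⟨by linarith, fun _ => by linarith⟩
    obtain ⟨⟨i0, v0⟩, h0⟩ := hZ
    rw [← add_sum_erase univ _ (mem_univ i0)]
    have h1 := (hle i0).2 ⟨v0, h0⟩
    have h2 := sum_nonpos (s := univ.erase i0) (fun i _ => (hle i).1)
    linarith
  -- the pairing
  let μ' : ι × V → ι × V := fun p =>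
    if h : p.2 ∈ A p.1 ∧ μ p.2 ≠ p.2 ∧ ∃ j, μ p.2 ∈ A j then (h.2.2.choose, μ p.2) else p
  have hμ1 : ∀ i v j, v ∈ A i → μ v ≠ v → μ v ∈ A j → μ' (i, v) = (j, μ v) := by
    intro i v j h1 h2 h3
    have h : (i, v).2 ∈ A (i, v).1 ∧ μ (i, v).2 ≠ (i, v).2 ∧ ∃ j, μ (i, v).2 ∈ A j :=
      ⟨h1, h2, j, h3⟩
    simp only [μ']
    rw [dif_pos h]
    have h4 := h.2.2.choose_spec
    have : h.2.2.choose = j := huniq (μ v) (by rw [hμ]; exact h2.symm) _ _ h4 h3
    rw [this]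
  have hμ2 : ∀ p : ι × V, ¬ (p.2 ∈ A p.1 ∧ μ p.2 ≠ p.2 ∧ ∃ j, μ p.2 ∈ A j) → μ' p = p := by
    intro p h
    simp only [μ']
    rw [dif_neg h]
  have hμi : ∀ p, μ' (μ' p) = p := by
    rintro ⟨i, v⟩
    by_cases h : v ∈ A i ∧ μ v ≠ v ∧ ∃ j, μ v ∈ A j
    · obtain ⟨h1, h2, j, h3⟩ := h
      rw [hμ1 i v j h1 h2 h3, hμ1 j (μ v) i h3 (by rw [hμ]; exact h2.symm) (by rw [hμ]; exact h1),
        hμ]
    · rw [hμ2 (i, v) h, hμ2 (i, v) h]
  have hodd' : ∀ p, Odd (y' (μ' p)) ↔ Odd (y' p) := by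
    rintro ⟨i, v⟩
    by_cases h : v ∈ A i ∧ μ v ≠ v ∧ ∃ j, μ v ∈ A j
    · obtain ⟨h1, h2, j, h3⟩ := h
      rw [hμ1 i v j h1 h2 h3]
      simp only [y']
      rw [if_pos (hAS i h1), if_pos (hAS j h3), hodd j _ (hAS j h3), hodd i _ (hAS i h1), hμ]
      exact ⟨fun _ => ⟨h2, h1⟩, fun _ => ⟨h2.symm, h3⟩⟩
    · rw [hμ2 (i, v) h]
  obtain ⟨ε, hε1, hε2, hε3⟩ := slot hk hr' ht' y' hy' μ' hμi hodd'
  -- the signs
  let σ : V → ℤ := fun v => if μ v = v then 0 else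
    if h : ∃ i, v ∈ A i then ε (h.choose, v) else
      if h' : ∃ j, μ v ∈ A j then - ε (h'.choose, μ v) else sgv μ 1 v
  have hσ0 : ∀ v, μ v = v → σ v = 0 := by
    intro v hv
    simp only [σ]
    rw [if_pos hv]
  have hσ1 : ∀ v i, μ v ≠ v → v ∈ A i → σ v = ε (i, v) := by
    intro v i hv hi
    simp only [σ]
    rw [if_neg hv]
    have h : ∃ i, v ∈ A i := ⟨i, hi⟩
    rw [dif_pos h]
    have : h.choose = i := huniq v hv _ _ h.choose_spec hi
    rw [this]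
  have hσ2 : ∀ v j, μ v ≠ v → (¬ ∃ i, v ∈ A i) → μ v ∈ A j → σ v = - ε (j, μ v) := by
    intro v j hv hn hj
    simp only [σ]
    rw [if_neg hv, dif_neg hn]
    have h : ∃ j, μ v ∈ A j := ⟨j, hj⟩
    rw [dif_pos h]
    have : h.choose = j := huniq (μ v) (by rw [hμ]; exact hv.symm) _ _ h.choose_spec hj
    rw [this]
  have hσ3 : ∀ v, μ v ≠ v → (¬ ∃ i, v ∈ A i) → (¬ ∃ j, μ v ∈ A j) → σ v = sgv μ 1 v := by
    intro v hv hn hj
    simp only [σ]
    rw [if_neg hv, dif_neg hn, dif_neg hj]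
  refine ⟨σ, fun v => ?_, fun v hv => ?_, hσ0, fun i Z hZ hZS hZc => ?_⟩
  · by_cases hv : μ v = v
    · rw [hv, hσ0 v hv, neg_zero]
    have hv' : μ (μ v) ≠ μ v := by rw [hμ]; exact fun h => hv h.symm
    by_cases h1 : ∃ i, v ∈ A i
    · obtain ⟨i, hi⟩ := h1
      rw [hσ1 v i hv hi]
      by_cases h2 : ∃ j, μ v ∈ A j
      · obtain ⟨j, hj⟩ := h2
        rw [hσ1 (μ v) j hv' hj, ← hμ1 i v j hi hv hj]
        apply hε2
        · simp only [y']
          rw [if_pos (hAS i hi), hodd i v (hAS i hi)]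
          exact ⟨hv, hi⟩
        · rw [hμ1 i v j hi hv hj]
          intro hc
          exact hv (congrArg Prod.snd hc)
      · rw [hσ2 (μ v) i hv' h2 (by rw [hμ]; exact hi), hμ]
    · by_cases h2 : ∃ j, μ v ∈ A j
      · obtain ⟨j, hj⟩ := h2
        rw [hσ2 v j hv h1 hj, hσ1 (μ v) j hv' hj, neg_neg]
      · rw [hσ3 v hv h1 h2, hσ3 (μ v) hv' h2 (by rw [hμ]; exact h1)]
        exact sgv_inv μ hμ 1 v
  · by_cases h1 : ∃ i, v ∈ A i
    · obtain ⟨i, hi⟩ := h1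
      rw [hσ1 v i hv hi]
      exact hε1 _
    · by_cases h2 : ∃ j, μ v ∈ A j
      · obtain ⟨j, hj⟩ := h2
        rw [hσ2 v j hv h1 hj]
        rcases hε1 (j, μ v) with h | h
        · right; rw [h]
        · left; rw [h]; norm_num
      · rw [hσ3 v hv h1 h2]
        unfold sgv
        rw [if_neg hv]
        split_ifs
        · exact Or.inl rfl
        · exact Or.inr rfl
  · let Z' : Finset (ι × V) := univ.filter fun p => p.1 = i ∧ p.2 ∈ Z
    have hZ'ne : Z'.Nonempty := by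
      obtain ⟨v, hv⟩ := hZ
      exact ⟨(i, v), by simp [Z', hv]⟩
    have hZ'c : ∀ p ∈ Z', ∀ q, R' p q → q ∈ Z' := by
      rintro ⟨i', u⟩ hp ⟨j, v⟩ hpq
      simp only [Z', mem_filter, mem_univ, true_and] at hp ⊢
      obtain ⟨rfl, hu⟩ := hp
      rcases hpq with h | ⟨h1, h2, h3, h4⟩
      · rw [Prod.mk.injEq] at h
        exact ⟨h.1.symm, h.2 ▸ hu⟩
      · exact ⟨h1.symm, hZc u hu v h4⟩
    have hfin := hε3 Z' hZ'ne hZ'c
    have hsub : ∀ f : ι × V → ℤ, ∑ p ∈ Z', f p = xs (fun v => f (i, v)) Z := by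
      intro f
      unfold xs
      rw [sum_filter, Fintype.sum_prod_type, sum_eq_single i]
      · refine sum_congr rfl fun v _ => ?_
        by_cases hv : v ∈ Z <;> simp [hv]
      · intro j _ hj
        refine sum_eq_zero fun v _ => ?_
        rw [if_neg]
        exact fun hh => hj hh.1
      · intro hh
        exact absurd (mem_univ _) hh
    rw [hsub, hsub] at hfin
    have e1 : xs (fun v => y' (i, v)) Z = xs (y i) Z := by
      unfold xs
      refine sum_congr rfl fun v _ => ?_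
      by_cases hv : v ∈ Z
      · rw [if_pos hv, if_pos hv]
        simp only [y']
        rw [if_pos (hZS hv)]
      · rw [if_neg hv, if_neg hv]
    have e2 : xs (fun v => if Odd (y' (i, v)) then ε (i, v) else 0) Z =
        xs (fun v => if v ∈ A i then σ v else 0) Z := by
      unfold xs
      refine sum_congr rfl fun v _ => ?_
      by_cases hv : v ∈ Z
      · rw [if_pos hv, if_pos hv]
        simp only [y']
        rw [if_pos (hZS hv)]
        by_cases hA : v ∈ A i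
        · rw [if_pos hA]
          by_cases hm : μ v = v
          · rw [hσ0 v hm, if_neg]
            rw [hodd i v (hZS hv)]
            exact fun hh => hh.1 hm
          · rw [hσ1 v i hm hA, if_pos]
            rw [hodd i v (hZS hv)]
            exact ⟨hm, hA⟩
        · rw [if_neg hA, if_neg]
          rw [hodd i v (hZS hv)]
          exact fun hh => hA hh.2
      · rw [if_neg hv, if_neg hv]
    rw [e1, e2] at hfin
    exact hfin

end OS9e
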