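import Pool.Agent.Lib_MP_e457e7_g3.Trans

/-!
# A transversal of an arbitrary pairing of the arcs of a `Dig k`
-/

set_option autoImplicit false
set_option linter.unusedSectionVars false

namespace OS9e
open Finset G3

/-- every pairing of the arcs has a transversal `F` such that `F` and its complement have at most
`k * (|Y| - 1)` arcs inside every nonempty set `Y` -/
theorem split_of_dig {k : ℕ} (hk : GK k) {W E : Type} [Fintype W] [DecidableEq W] [Fintype E]
    [DecidableEq E] (h : E → W) (t : E → Option W) (P : E → E) (hD : Dig k h t)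
    (hP : ∀ e, P (P e) = e) (hP' : ∀ e, P e ≠ e) :
    ∃ F : Finset E, (∀ e, P e ∈ F ↔ e ∉ F) ∧ ∀ Y : Finset W, Y.Nonempty →
      #{e ∈ F | h e ∈ Y ∧ ∃ w ∈ Y, t e = some w} ≤ k * (#Y - 1) ∧
      #{e ∈ Fᶜ | h e ∈ Y ∧ ∃ w ∈ Y, t e = some w} ≤ k * (#Y - 1) := by
  obtain ⟨c, hc⟩ := hk W E h t hD
  let x : E → W → ZMod 3 := fun e => Pi.single (h e) 1 - vv (t e)
  have h1 := cf_block x c
  have h2 : cf (∏ e, lf (fun p : W × Fin k => if c e = p.2 then x e p.1 else 0)) ≠ 0 := by
    rw [h1]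
    refine prod_ne_zero_iff.2 fun b _ => ?_
    have := hc b
    rw [D] at this
    rw [prod_congr rfl fun e _ => (af_eq h t e).symm]
    exact this
  obtain ⟨F, hF, hl1, hl2⟩ := exists_split _ P hP hP' h2
  refine ⟨F, hF, fun Y hY => ⟨card_inside_le h t c F hl1 Y hY, ?_⟩⟩
  have hl3 : LinearIndependent (ZMod 3) (fun e : {e // e ∈ Fᶜ} => fun p : W × Fin k =>
      if c e = p.2 then ((Pi.single (h e) 1 - vv (t e) : W → ZMod 3)) p.1 else 0) :=
    hl2.comp (fun e : {e // e ∈ Fᶜ} => (⟨e.1, mem_compl.1 e.2⟩ : {e // e ∉ F}))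
      (fun a b hab => Subtype.ext (congrArg (fun z : {e // e ∉ F} => z.1) hab))
  exact card_inside_le h t c Fᶜ hl3 Y hY

end OS9e
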