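import Pool.Agent.Lib_MP_9e7d46_os.Graph
import Pool.Agent.Lib_MP_9e7d46_os.Pair
import Pool.Agent.Lib_MP_9e7d46_os.Split
import Pool.Agent.Lib_MP_e457e7_g3.Loc

/-!
# The slot theorem

`V` a finite set with a preorder `R` and integers `y v` such that every nonempty closed set `Z` has
`y Z ≤ -2k`; `μ` an arbitrary involution preserving the set of the `v` with `y v` odd. There are signs `ε`
with `ε (μ v) = - ε v` for all odd `v` with `μ v ≠ v` and `|ε Z| ≤ -y Z - 2 k` for all nonempty closed `Z`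
(sum over the odd elements of `Z`).
-/

set_option autoImplicit false
set_option linter.unusedSectionVars false

namespace OS9e
open Finset Classical

theorem gk {k : ℕ} (hk : 3 ≤ k) : G3.GK k := G3.GK_of_local (Pool.Agent.LibE457g.localLemma hk)

variable {V : Type} [Fintype V]

/-- the cell of an element -/
noncomputable def cell (x : V → ℕ) (ρ : ℕ) (μ : V → V) : EE x ρ → Option (V ⊕ Sym2 V)
  | Sum.inl p => if p.2.1 + 1 = x p.1 ∧ Odd (x p.1) then
      (if μ p.1 = p.1 then none else some (Sum.inr s(p.1, μ p.1))) else some (Sum.inl p.1)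
  | Sum.inr _ => none

theorem cell_ne {x : V → ℕ} {ρ : ℕ} {μ : V → V} {v : V} {i : Fin (x v)} (h1 : i.1 + 1 = x v)
    (h2 : Odd (x v)) : cell x ρ μ (Sum.inl ⟨v, i⟩) ≠ some (Sum.inl v) := by
  simp only [cell]
  rw [if_pos ⟨h1, h2⟩]
  split_ifs <;> simp

theorem cell_eq {x : V → ℕ} {ρ : ℕ} {μ : V → V} {v : V} {i : Fin (x v)}
    (h : ¬ (i.1 + 1 = x v ∧ Odd (x v))) :
    cell x ρ μ (Sum.inl ⟨v, i⟩) = some (Sum.inl v) := by
  simp only [cell]
  rw [if_neg h]

theorem sum_last (n : ℕ) (f : Fin n → ℕ) (hf : ∀ i, f i = if i.1 + 1 = n then 1 else 0) :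
    ∑ i, f i = if 0 < n then 1 else 0 := by
  rw [sum_congr rfl fun i _ => hf i]
  rcases n with _ | m
  · simp
  · rw [if_pos (Nat.succ_pos m), sum_eq_single (Fin.last m)]
    · simp
    · intro i _ hi
      rw [if_neg]
      intro h
      apply hi
      ext
      simp only [Fin.val_last]
      omega
    · intro h
      exact absurd (mem_univ _) h

theorem even_cell_inl (x : V → ℕ) (ρ : ℕ) (μ : V → V) (v : V) :
    Even #{e : EE x ρ | cell x ρ μ e = some (Sum.inl v)} := by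
  rw [card_filter, sum_EE]
  have h2 : ∑ j : Fin ρ, (if cell x ρ μ (Sum.inr j) = some (Sum.inl v) then 1 else 0) = 0 :=
    sum_eq_zero fun j _ => by simp [cell]
  rw [h2, add_zero, sum_eq_single v]
  · have h3 : ∀ i : Fin (x v), (if cell x ρ μ (Sum.inl ⟨v, i⟩) = some (Sum.inl v) then 1 else 0) +
        (if i.1 + 1 = x v ∧ Odd (x v) then 1 else 0) = 1 := by
      intro i
      by_cases h : i.1 + 1 = x v ∧ Odd (x v)
      · rw [if_pos h]
        have : cell x ρ μ (Sum.inl ⟨v, i⟩) ≠ some (Sum.inl v) := by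
          simp only [cell]
          rw [if_pos h]
          split_ifs <;> simp
        rw [if_neg this]
      · rw [if_neg h]
        have : cell x ρ μ (Sum.inl ⟨v, i⟩) = some (Sum.inl v) := by
          simp only [cell]
          rw [if_neg h]
        rw [if_pos this]
    have h4 : ∑ i : Fin (x v), (if cell x ρ μ (Sum.inl ⟨v, i⟩) = some (Sum.inl v) then 1 else 0) +
        ∑ i : Fin (x v), (if i.1 + 1 = x v ∧ Odd (x v) then 1 else 0) = x v := by
      rw [← sum_add_distrib, sum_congr rfl fun i _ => h3 i]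
      simp
    by_cases ho : Odd (x v)
    · have h5 : ∑ i : Fin (x v), (if i.1 + 1 = x v ∧ Odd (x v) then 1 else 0) = 1 := by
        rw [sum_last (x v) _ (fun i => by simp [ho]), if_pos ho.pos]
      rw [h5] at h4
      obtain ⟨m, hm⟩ := ho
      exact ⟨m, by omega⟩
    · have h5 : ∑ i : Fin (x v), (if i.1 + 1 = x v ∧ Odd (x v) then 1 else 0) = 0 :=
        sum_eq_zero fun i _ => by simp [ho]
      rw [h5] at h4
      obtain ⟨m, hm⟩ := Nat.not_odd_iff_even.1 ho
      exact ⟨m, by omega⟩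
  · intro u _ hu
    refine sum_eq_zero fun i _ => ?_
    rw [if_neg]
    simp only [cell]
    split_ifs <;> simp [hu]
  · intro h
    exact absurd (mem_univ _) h

theorem even_cell_inr (x : V → ℕ) (ρ : ℕ) (μ : V → V) (hμ : ∀ v, μ (μ v) = v)
    (hodd : ∀ v, Odd (x (μ v)) ↔ Odd (x v)) (z : Sym2 V) :
    Even #{e : EE x ρ | cell x ρ μ e = some (Sum.inr z)} := by
  rw [card_filter, sum_EE]
  have h2 : ∑ j : Fin ρ, (if cell x ρ μ (Sum.inr j) = some (Sum.inr z) then 1 else 0) = 0 :=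
    sum_eq_zero fun j _ => by simp [cell]
  rw [h2, add_zero]
  have h3 : ∀ v, ∑ i : Fin (x v), (if cell x ρ μ (Sum.inl ⟨v, i⟩) = some (Sum.inr z)
      then 1 else 0) = if Odd (x v) ∧ μ v ≠ v ∧ s(v, μ v) = z then 1 else 0 := by
    intro v
    by_cases h : Odd (x v) ∧ μ v ≠ v ∧ s(v, μ v) = z
    · rw [if_pos h, sum_last (x v), if_pos h.1.pos]
      intro i
      by_cases hi : i.1 + 1 = x v
      · rw [if_pos hi, if_pos]
        simp only [cell]
        rw [if_pos ⟨hi, h.1⟩, if_neg h.2.1, h.2.2]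
      · rw [if_neg hi, if_neg]
        simp only [cell]
        rw [if_neg (fun hh => hi hh.1)]
        simp
    · rw [if_neg h]
      refine sum_eq_zero fun i _ => ?_
      rw [if_neg]
      intro hc
      apply h
      simp only [cell] at hc
      split_ifs at hc with h4 h5
      · rw [Option.some.injEq, Sum.inr.injEq] at hc
        exact ⟨h4.2, h5, hc⟩
      · simp at hc
  rw [sum_congr rfl fun v _ => h3 v, ← card_filter]
  refine even_of_invol _ μ (fun v _ => hμ v) (fun v hv => ?_) (fun v hv => ?_)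
  · rw [mem_filter] at hv ⊢
    refine ⟨mem_univ _, (hodd v).2 hv.2.1, ?_, ?_⟩
    · rw [hμ]
      exact fun hh => hv.2.2.1 hh.symm
    · rw [hμ, Sym2.eq_swap]
      exact hv.2.2.2
  · exact (mem_filter.1 hv).2.2.1

theorem even_cell (x : V → ℕ) (ρ : ℕ) (μ : V → V) (hμ : ∀ v, μ (μ v) = v)
    (hodd : ∀ v, Odd (x (μ v)) ↔ Odd (x v)) (hev : Even (Fintype.card (EE x ρ)))
    (c : Option (V ⊕ Sym2 V)) : Even #{e : EE x ρ | cell x ρ μ e = c} := by
  have hsome : ∀ c : V ⊕ Sym2 V, Even #{e : EE x ρ | cell x ρ μ e = some c} := by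
    rintro (v | z)
    · exact even_cell_inl x ρ μ v
    · exact even_cell_inr x ρ μ hμ hodd z
  rcases c with _ | c
  · have h1 := card_eq_sum_card_fiberwise (f := cell x ρ μ) (s := univ) (t := univ)
      (fun e _ => mem_coe.2 (mem_univ _))
    rw [card_univ, Fintype.sum_option] at h1
    have h2 : Even (∑ c : V ⊕ Sym2 V, #{e : EE x ρ | cell x ρ μ e = some c}) :=
      even_sum _ fun c _ => hsome c
    rw [h1] at hev
    exact (Nat.even_add.1 hev).2 h2
  · exact hsome c

theorem slot {k : ℕ} (hk : 3 ≤ k) {R : V → V → Prop} (hr : ∀ v, R v v)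
    (ht : ∀ u v w, R u v → R v w → R u w) (y : V → ℤ)
    (hy : ∀ Z : Finset V, Z.Nonempty → (∀ u ∈ Z, ∀ v, R u v → v ∈ Z) →
      ∑ v ∈ Z, y v ≤ -(2 * k : ℤ))
    (μ : V → V) (hμ : ∀ v, μ (μ v) = v) (hodd : ∀ v, Odd (y (μ v)) ↔ Odd (y v)) :
    ∃ ε : V → ℤ, (∀ v, ε v = 1 ∨ ε v = -1) ∧
      (∀ v, Odd (y v) → μ v ≠ v → ε (μ v) = - ε v) ∧
      ∀ Z : Finset V, Z.Nonempty → (∀ u ∈ Z, ∀ v, R u v → v ∈ Z) →
        |∑ v ∈ Z, if Odd (y v) then ε v else 0| ≤ -(∑ v ∈ Z, y v) - 2 * k := by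
  obtain ⟨c, hc0, hc⟩ : ∃ c : ℕ, 0 < c ∧ ∀ v, 0 ≤ y v + 2 * k * c := by
    refine ⟨(∑ v, |y v|).toNat + 1, Nat.succ_pos _, fun v => ?_⟩
    have h1 : |y v| ≤ ∑ v, |y v| := single_le_sum (fun u _ => abs_nonneg (y u)) (mem_univ v)
    have h2 : -|y v| ≤ y v := neg_abs_le _
    have h3 : ((∑ v, |y v|).toNat : ℤ) = ∑ v, |y v| :=
      Int.toNat_of_nonneg (sum_nonneg fun u _ => abs_nonneg _)
    push_cast
    rw [h3]
    have h4 : (0 : ℤ) ≤ ∑ v, |y v| := sum_nonneg fun u _ => abs_nonneg _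
    have h5 : (3 : ℤ) ≤ k := by exact_mod_cast hk
    nlinarith
  obtain ⟨x, hx⟩ : ∃ x : V → ℕ, ∀ v, (x v : ℤ) = y v + 2 * k * c :=
    ⟨fun v => (y v + 2 * k * c).toNat, fun v => Int.toNat_of_nonneg (hc v)⟩
  have hyu : ∑ v, y v ≤ 0 := by
    rcases (univ : Finset V).eq_empty_or_nonempty with h | h
    · rw [h, sum_empty]
    · have := hy univ h (fun _ _ v _ => mem_univ v)
      have h5 : (3 : ℤ) ≤ k := by exact_mod_cast hk
      linarith
  obtain ⟨ρ, hρ⟩ : ∃ ρ : ℕ, (ρ : ℤ) = -∑ v, y v :=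
    ⟨(-∑ v, y v).toNat, Int.toNat_of_nonneg (by linarith)⟩
  have hxZ : ∀ Z : Finset V, ((∑ v ∈ Z, x v : ℕ) : ℤ) = ∑ v ∈ Z, y v + 2 * k * (c * #Z) := by
    intro Z
    push_cast
    rw [sum_congr rfl fun v _ => hx v, sum_add_distrib, sum_const, nsmul_eq_mul]
    ring
  have hsum : ∑ v, x v + ρ = 2 * k * (c * Fintype.card V) := by
    have h1 := hxZ univ
    rw [card_univ] at h1
    zify
    push_cast at h1
    rw [h1, hρ]
    ring
  have hcl : ∀ Z : Finset V, Z.Nonempty → (∀ u ∈ Z, ∀ v, R u v → v ∈ Z) →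
      ∑ v ∈ Z, x v + 2 * k ≤ 2 * k * (c * #Z) := by
    intro Z hZ hZc
    have h1 := hxZ Z
    have h2 := hy Z hZ hZc
    zify
    push_cast at h1
    rw [h1]
    linarith
  have hpar : ∀ v, Odd (x v) ↔ Odd (y v) := by
    intro v
    rw [← Int.odd_coe_nat, hx]
    have : Even (2 * (k : ℤ) * c) := ⟨k * c, by ring⟩
    rw [Int.odd_add]
    simp [this]
  obtain ⟨h, t, hD, hht⟩ := exists_dig hr ht hc0 hsum hcl
  have hev : Even (Fintype.card (EE x ρ)) := by
    rw [card_EE, hsum, mul_assoc]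
    exact even_two_mul _
  obtain ⟨P, hP1, hP2, hP3⟩ := exists_invol_cells (cell x ρ μ) (by
    intro c
    have := even_cell x ρ μ hμ (fun v => by rw [hpar, hpar]; exact hodd v) hev c
    convert this)
  obtain ⟨F, hF1, hF2⟩ := split_of_dig (gk hk) h t P (by convert hD) hP1 hP2
  let g : EE x ρ → ℤ := fun e => if e ∈ F then 1 else -1
  have hg : ∀ e, g (P e) = - g e := by
    intro e
    simp only [g, hF1]
    by_cases h : e ∈ F <;> simp [h]
  let ε : V → ℤ := fun v =>
    if ∃ i : Fin (x v), i.1 + 1 = x v ∧ Sum.inl ⟨v, i⟩ ∈ F then 1 else -1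
  have hε : ∀ v (i : Fin (x v)), i.1 + 1 = x v → g (Sum.inl ⟨v, i⟩) = ε v := by
    intro v i hi
    simp only [g, ε]
    by_cases hF : Sum.inl ⟨v, i⟩ ∈ F
    · rw [if_pos hF, if_pos ⟨i, hi, hF⟩]
    · rw [if_neg hF, if_neg]
      rintro ⟨j, hj, hjF⟩
      have : j = i := Fin.ext (by omega)
      rw [this] at hjF
      exact hF hjF
  -- the sum of `g` over the elements at `v`
  have hgv : ∀ v, ∑ i : Fin (x v), g (Sum.inl ⟨v, i⟩) = if Odd (y v) then ε v else 0 := by
    intro v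
    let G : EE x ρ → ℤ := fun e => if cell x ρ μ e = some (Sum.inl v) then g e else 0
    have hG : ∑ e, G e = 0 := by
      let Pe : Equiv.Perm (EE x ρ) := ⟨P, P, hP1, hP1⟩
      have h1 : ∑ e, G (Pe e) = ∑ e, G e := Equiv.sum_comp Pe G
      have h2 : ∀ e, G (Pe e) = - G e := by
        intro e
        have : Pe e = P e := rfl
        simp only [G, this, hP3, hg]
        split_ifs <;> simp
      rw [sum_congr rfl fun e _ => h2 e, sum_neg_distrib] at h1
      linarith
    rw [Fintype.sum_sum_type, Fintype.sum_sigma] at hG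
    have h2 : ∑ j : Fin ρ, G (Sum.inr j) = 0 := sum_eq_zero fun j _ => by simp [G, cell]
    rw [h2, add_zero, sum_eq_single v] at hG
    · have h3 : ∀ i : Fin (x v), g (Sum.inl ⟨v, i⟩) = G (Sum.inl ⟨v, i⟩) +
          (if i.1 + 1 = x v then (if Odd (y v) then ε v else 0) else 0) := by
        intro i
        simp only [G]
        by_cases hi : i.1 + 1 = x v
        · by_cases ho : Odd (x v)
          · rw [if_pos hi, if_pos ((hpar v).1 ho), if_neg (cell_ne hi ho), zero_add, hε v i hi]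
          · rw [if_pos hi, if_neg (fun hh => ho ((hpar v).2 hh)),
              if_pos (cell_eq fun hh => ho hh.2), add_zero]
        · rw [if_neg hi, if_pos (cell_eq fun hh => hi hh.1), add_zero]
      rw [sum_congr rfl fun i _ => h3 i, sum_add_distrib, hG, zero_add]
      by_cases ho : Odd (y v)
      · rw [if_pos ho]
        have hpos : 0 < x v := ((hpar v).2 ho).pos
        rw [sum_eq_single ⟨x v - 1, by omega⟩]
        · rw [if_pos]
          show x v - 1 + 1 = x v
          omega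
        · intro i _ hi
          rw [if_neg]
          intro hh
          apply hi
          ext
          show i.1 = x v - 1
          omega
        · intro hh
          exact absurd (mem_univ _) hh
      · rw [if_neg ho]
        exact sum_eq_zero fun i _ => by simp
    · intro u _ hu
      refine sum_eq_zero fun i _ => ?_
      simp only [G, cell]
      rw [if_neg]
      split_ifs <;> simp [hu]
    · intro hh
      exact absurd (mem_univ _) hh
  refine ⟨ε, fun v => ?_, fun v ho hne => ?_, fun Z hZ hZc => ?_⟩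
  · simp only [ε]
    split_ifs
    · exact Or.inl rfl
    · exact Or.inr rfl
  · have hox : Odd (x v) := (hpar v).2 ho
    have hpos : 0 < x v := hox.pos
    let i : Fin (x v) := ⟨x v - 1, by omega⟩
    have hi : i.1 + 1 = x v := by
      show x v - 1 + 1 = x v
      omega
    have hcell : cell x ρ μ (Sum.inl ⟨v, i⟩) = some (Sum.inr s(v, μ v)) := by
      simp only [cell]
      rw [if_pos ⟨hi, hox⟩, if_neg hne]
    have hPc := hP3 (Sum.inl ⟨v, i⟩)
    rw [hcell] at hPc
    rcases hPe : P (Sum.inl ⟨v, i⟩) with ⟨u, j⟩ | j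
    · rw [hPe] at hPc
      simp only [cell] at hPc
      split_ifs at hPc with h4 h5
      · rw [Option.some.injEq, Sum.inr.injEq, Sym2.eq_iff] at hPc
        rcases hPc with ⟨h6, -⟩ | ⟨h6, -⟩
        · subst h6
          exfalso
          apply hP2 (Sum.inl ⟨u, i⟩)
          rw [hPe]
          have : j = i := Fin.ext (by have := h4.1; omega)
          rw [this]
        · subst h6
          rw [← hε _ j h4.1, ← hε v i hi, ← hPe, hg]
      · simp at hPc
    · rw [hPe] at hPc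
      simp [cell] at hPc
  · have hgZ : ∑ v ∈ Z, (if Odd (y v) then ε v else 0) =
        ∑ v ∈ Z, ∑ i : Fin (x v), g (Sum.inl ⟨v, i⟩) := sum_congr rfl fun v _ => (hgv v).symm
    let Y : Finset (V × Fin c) := Z ×ˢ univ
    have hYne : Y.Nonempty := hZ.product ⟨⟨0, hc0⟩, mem_univ _⟩
    have hYc : #Y = #Z * c := by
      rw [card_product, card_univ, Fintype.card_fin]
    obtain ⟨hb1, hb2⟩ := hF2 Y hYne
    have hcount : ∀ F' : Finset (EE x ρ), ∑ v ∈ Z, ∑ i : Fin (x v),
        (if Sum.inl ⟨v, i⟩ ∈ F' then 1 else 0) ≤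
        #{e ∈ F' | h e ∈ Y ∧ ∃ w ∈ Y, t e = some w} := by
      intro F'
      have hF' : (F'.filter fun e => h e ∈ Y ∧ ∃ w ∈ Y, t e = some w) =
          univ.filter fun e => e ∈ F' ∧ (h e ∈ Y ∧ ∃ w ∈ Y, t e = some w) := by
        ext e
        simp only [mem_filter, mem_univ, true_and]
      rw [hF', card_filter, sum_EE]
      refine le_trans ?_ (Nat.le_add_right _ _)
      calc ∑ v ∈ Z, ∑ i : Fin (x v), (if Sum.inl ⟨v, i⟩ ∈ F' then 1 else 0)
          ≤ ∑ v ∈ Z, ∑ i : Fin (x v), (if (Sum.inl ⟨v, i⟩ : EE x ρ) ∈ F' ∧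
              (h (Sum.inl ⟨v, i⟩) ∈ Y ∧ ∃ w ∈ Y, t (Sum.inl ⟨v, i⟩) = some w) then 1 else 0) := by
            refine sum_le_sum fun v hv => sum_le_sum fun i _ => ?_
            by_cases hiF : (Sum.inl ⟨v, i⟩ : EE x ρ) ∈ F'
            · rw [if_pos hiF, if_pos]
              obtain ⟨hh1, w, hw1, hw2⟩ := hht v i
              exact ⟨hiF, mem_product.2 ⟨hZc v hv _ hh1, mem_univ _⟩, w,
                mem_product.2 ⟨hZc v hv _ hw2, mem_univ _⟩, hw1⟩
            · rw [if_neg hiF]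
              exact Nat.zero_le _
        _ ≤ _ := sum_le_sum_of_subset (subset_univ _)
    have c1 := (hcount F).trans hb1
    have c2 := (hcount Fᶜ).trans hb2
    rw [hgZ]
    have e1 : ∑ v ∈ Z, ∑ i : Fin (x v), g (Sum.inl ⟨v, i⟩) =
        ((∑ v ∈ Z, ∑ i : Fin (x v), (if (Sum.inl ⟨v, i⟩ : EE x ρ) ∈ F then 1 else 0) : ℕ) : ℤ) -
        ((∑ v ∈ Z, ∑ i : Fin (x v), (if (Sum.inl ⟨v, i⟩ : EE x ρ) ∈ Fᶜ then 1 else 0) : ℕ) : ℤ) := by
      push_cast
      rw [← sum_sub_distrib]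
      refine sum_congr rfl fun v _ => ?_
      rw [← sum_sub_distrib]
      refine sum_congr rfl fun i _ => ?_
      simp only [g, mem_compl]
      by_cases hiF : (Sum.inl ⟨v, i⟩ : EE x ρ) ∈ F <;> simp [hiF]
    have e2 : ∑ v ∈ Z, ∑ i : Fin (x v), (if (Sum.inl ⟨v, i⟩ : EE x ρ) ∈ F then 1 else 0) +
        ∑ v ∈ Z, ∑ i : Fin (x v), (if (Sum.inl ⟨v, i⟩ : EE x ρ) ∈ Fᶜ then 1 else 0) =
        ∑ v ∈ Z, x v := by
      rw [← sum_add_distrib]
      refine sum_congr rfl fun v _ => ?_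
      rw [← sum_add_distrib]
      have : ∀ i : Fin (x v), (if (Sum.inl ⟨v, i⟩ : EE x ρ) ∈ F then 1 else 0) +
          (if (Sum.inl ⟨v, i⟩ : EE x ρ) ∈ Fᶜ then 1 else 0) = 1 := by
        intro i
        by_cases hiF : (Sum.inl ⟨v, i⟩ : EE x ρ) ∈ F <;> simp [hiF]
      rw [sum_congr rfl fun i _ => this i]
      simp
    have e3 := hxZ Z
    rw [e1]
    have hpos : 1 ≤ #Z * c := Nat.mul_pos hZ.card_pos hc0
    rw [hYc] at c1 c2
    generalize ∑ v ∈ Z, ∑ i : Fin (x v), (if (Sum.inl ⟨v, i⟩ : EE x ρ) ∈ F then 1 else 0) = a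
      at *
    generalize ∑ v ∈ Z, ∑ i : Fin (x v), (if (Sum.inl ⟨v, i⟩ : EE x ρ) ∈ Fᶜ then 1 else 0) = b
      at *
    zify [hpos] at c1 c2
    rw [← e2] at e3
    push_cast at e3
    rw [abs_le]
    constructor <;> nlinarith

end OS9e
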