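import Pool.Agent.Lib_MP_9e7d46_os.Flow
import Pool.Agent.Lib_MP_9e7d46_os.Quot

/-!
# Two vertices `p`, `q` in place of a highly connected class
-/

set_option autoImplicit false
set_option linter.unusedSectionVars false

namespace OS9e
open Finset Classical Pool.Agent.DJ9e

variable {V A : Type} [Fintype V] [Fintype A]

/-- the general theorem for the pairing of a flow from `p` to `q` -/
theorem gen_st {k : ℕ} (hk : 3 ≤ k) (s t : A → V) (p q : V)
    (hd : ∀ U : Set V, U.Nonempty → Uᶜ.Nonempty → NoIn s t U → 2 * k ≤ dd s t U)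
    {ι : Type} [Fintype ι] (S : ι → Set V) (typ : ι → Bool) (B : ι → Set V)
    (hS2 : ∀ i, typ i = true → NoOut s t (S i)) (hS3 : ∀ i, typ i = false → NoIn s t (S i))
    (hBS : ∀ i, B i ⊆ S i)
    (huniq : ∀ v, Odd (dd s t {v}) → ∀ i j, v ∈ B i → v ∈ B j → i = j)
    (hher : ∀ i, ∀ Z : Set V, Z.Nonempty → Z ⊆ S i → (typ i = true → NoOut s t Z) →
      (typ i = false → NoIn s t Z) →
      2 * k + ({v | v ∈ Z ∧ (Odd (dd s t {v}) ∧ v ∉ B i)} : Set V).ncard ≤ dd s t Z)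
    (hcov : ∀ U : Set V, U.Nonempty → Uᶜ.Nonempty → NoIn s t U →
      (p ∈ U ∧ q ∉ U) ∨ (∃ i, typ i = false ∧ U ⊆ S i) ∨
      (∃ i, typ i = true ∧ Uᶜ ⊆ S i) ∨
      2 * k + ({v | v ∈ U ∧ Odd (dd s t {v})} : Set V).ncard ≤ dd s t U ∨
      2 * k + ({v | v ∉ U ∧ Odd (dd s t {v})} : Set V).ncard ≤ dd s t U) :
    ∃ O : A → Bool, ∀ U : Set V, U.Nonempty → Uᶜ.Nonempty → Sh s t U → k ≤ inn s t O U := by
  obtain ⟨μ, h1, h2, h3, h4⟩ := flow_pair k s t p q
    (fun U hin hp hq => hd U ⟨p, hp⟩ ⟨q, hq⟩ hin)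
  refine orient_of_cover hk s t μ h1 h2 h3 S typ B hS2 hS3 hBS huniq hher ?_
  intro U hU hUc hin
  rcases hcov U hU hUc hin with ⟨hp, hq⟩ | h
  · exact Or.inl (h4 U hin hp hq)
  · exact Or.inr h

variable (s t : A → V)

theorem gen_st_quot {k : ℕ} (hk : 3 ≤ k) (p q : V)
    (hd : ∀ U : Set V, U.Nonempty → Uᶜ.Nonempty → NoIn s t U → 2 * k ≤ dd s t U)
    {ι : Type} [Fintype ι] (S : ι → Set V) (typ : ι → Bool) (B : ι → Set V)
    (hS2 : ∀ i, typ i = true → NoOut s t (S i)) (hS3 : ∀ i, typ i = false → NoIn s t (S i))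
    (hBS : ∀ i, B i ⊆ S i) (hBc : ∀ i, ∀ v w, w ∈ comp s t v → (v ∈ B i ↔ w ∈ B i))
    (huniq : ∀ v, Odd (dd s t (comp s t v)) → ∀ i j, v ∈ B i → v ∈ B j → i = j)
    (hher : ∀ i, ∀ Z : Set V, Z.Nonempty → Z ⊆ S i → (typ i = true → NoOut s t Z) →
      (typ i = false → NoIn s t Z) → 2 * k + oddc s t (Z \ B i) ≤ dd s t Z)
    (hcov : ∀ U : Set V, U.Nonempty → Uᶜ.Nonempty → NoIn s t U →
      (p ∈ U ∧ q ∉ U) ∨ (∃ i, typ i = false ∧ U ⊆ S i) ∨
      (∃ i, typ i = true ∧ Uᶜ ⊆ S i) ∨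
      2 * k + oddc s t U ≤ dd s t U ∨ 2 * k + oddc s t Uᶜ ≤ dd s t U) :
    ∃ O : A → Bool, ∀ U : Set V, U.Nonempty → Uᶜ.Nonempty → Sh s t U → k ≤ inn s t O U := by
  apply orient_of_quot
  have hne : ∀ U : Set (QV s t), U.Nonempty → (qm s t ⁻¹' U).Nonempty := fun U hU =>
    hU.preimage (qm_surj s t)
  have hsat : ∀ i v w, qm s t v = qm s t w → w ∈ S i → v ∈ S i := by
    intro i v w hvw hw
    cases hi : typ i
    · exact sat_of_noIn s t (hS3 i hi) hvw hw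
    · exact sat_of_noOut s t (hS2 i hi) hvw hw
  have hBsat : ∀ i v w, qm s t v = qm s t w → w ∈ B i → v ∈ B i := by
    intro i v w hvw hw
    exact (hBc i v w ((qm_eq s t).1 hvw)).2 hw
  have hBpre : ∀ i, qm s t ⁻¹' (qm s t '' B i) = B i := by
    intro i
    ext v
    exact ⟨fun ⟨w, hw, hwv⟩ => hBsat i v w hwv.symm hw, fun hv => ⟨v, hv, rfl⟩⟩
  refine gen_st hk (qm s t ∘ s) (qm s t ∘ t) (qm s t p) (qm s t q) ?_ (fun i => qm s t '' S i) typ
    (fun i => qm s t '' B i) ?_ ?_ ?_ ?_ ?_ ?_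
  · intro U hU hUc hin
    rw [dd_comp]
    exact hd _ (hne U hU) (by rw [← Set.preimage_compl]; exact hne _ hUc) hin
  · rintro i hi a ⟨w, hw, hwa⟩
    exact ⟨t a, hS2 i hi a (hsat i _ w hwa.symm hw), rfl⟩
  · rintro i hi a ⟨w, hw, hwa⟩
    exact ⟨s a, hS3 i hi a (hsat i _ w hwa.symm hw), rfl⟩
  · exact fun i => Set.image_mono (hBS i)
  · intro x hx i j hi hj
    obtain ⟨v, rfl⟩ := qm_surj s t x
    rw [dd_comp, fiber] at hx
    obtain ⟨w, hw, hwv⟩ := hi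
    obtain ⟨w', hw', hwv'⟩ := hj
    exact huniq v hx i j (hBsat i v w hwv.symm hw) (hBsat j v w' hwv'.symm hw')
  · intro i Z hZ hZS h1 h2
    have h3 := hher i (qm s t ⁻¹' Z) (hne Z hZ) (by
      intro v hv
      obtain ⟨w, hw, hwv⟩ := hZS hv
      exact hsat i v w hwv.symm hw) h1 h2
    have h4 := oddc_ge s t (Z \ (qm s t '' B i))
    rw [Set.preimage_sdiff, hBpre] at h4
    have h5 : ({v | v ∈ Z ∧ (Odd (dd (qm s t ∘ s) (qm s t ∘ t) {v}) ∧ v ∉ qm s t '' B i)} :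
        Set (QV s t)) = {x | x ∈ Z \ (qm s t '' B i) ∧
          Odd (dd (qm s t ∘ s) (qm s t ∘ t) {x})} := by
      ext x
      simp only [Set.mem_ofPred_eq, Set.mem_sdiff]
      tauto
    rw [h5, dd_comp]
    omega
  · intro U hU hUc hin
    have hc : (qm s t ⁻¹' U)ᶜ = qm s t ⁻¹' Uᶜ := rfl
    rcases hcov (qm s t ⁻¹' U) (hne U hU) (by rw [hc]; exact hne _ hUc) hin with
      ⟨hp, hq⟩ | ⟨i, hi, h⟩ | ⟨i, hi, h⟩ | h | h
    · exact Or.inl ⟨hp, hq⟩
    · refine Or.inr (Or.inl ⟨i, hi, ?_⟩)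
      intro x hx
      obtain ⟨v, rfl⟩ := qm_surj s t x
      exact ⟨v, h hx, rfl⟩
    · refine Or.inr (Or.inr (Or.inl ⟨i, hi, ?_⟩))
      intro x hx
      obtain ⟨v, rfl⟩ := qm_surj s t x
      exact ⟨v, h hx, rfl⟩
    · refine Or.inr (Or.inr (Or.inr (Or.inl ?_)))
      rw [dd_comp]
      have := oddc_ge s t U
      omega
    · refine Or.inr (Or.inr (Or.inr (Or.inr ?_)))
      rw [dd_comp]
      have := oddc_ge s t Uᶜ
      rw [hc] at h
      have h2 : ({x | x ∉ U ∧ Odd (dd (qm s t ∘ s) (qm s t ∘ t) {x})} : Set (QV s t)) =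
          {x | x ∈ Uᶜ ∧ Odd (dd (qm s t ∘ s) (qm s t ∘ t) {x})} := rfl
      rw [h2]
      omega

/-- every odd vertex is reachable from `p` or reaches `q` -/
theorem st_odd {k : ℕ} (hk : 3 ≤ k) (p q : V)
    (hd : ∀ U : Set V, U.Nonempty → Uᶜ.Nonempty → NoIn s t U → 2 * k ≤ dd s t U)
    (hub : ∀ v, Odd (dd s t {v}) → Rch s t p v ∨ Rch s t v q) :
    ∃ O : A → Bool, ∀ U : Set V, U.Nonempty → Uᶜ.Nonempty → Sh s t U → k ≤ inn s t O U := by
  refine gen_st hk s t p q hd (ι := Bool) (fun b => if b = true then {v | ¬ Rch s t v q}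
    else {v | ¬ Rch s t p v}) (fun b => b)
    (fun b => if b = true then {v | ¬ Rch s t v q} else {v | ¬ Rch s t p v})
    ?_ ?_ (fun _ => le_refl _) ?_ (fun b => her_all s t hd _ _ b ?_ (fun _ h _ => h)) ?_
  · intro b hb
    rw [if_pos hb]
    exact fun a ha hc => ha (Relation.ReflTransGen.head ⟨a, rfl, rfl⟩ hc)
  · intro b hb
    rw [if_neg (by rw [hb]; simp)]
    exact fun a ha hc => ha (Relation.ReflTransGen.tail hc ⟨a, rfl, rfl⟩)
  · intro v hv i j hi hj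
    have h := hub v hv
    cases i <;> cases j
    · rfl
    · exfalso
      rcases h with h | h
      · exact hi h
      · exact hj h
    · exfalso
      rcases h with h | h
      · exact hj h
      · exact hi h
    · rfl
  · cases b
    · exact ⟨p, fun h => h Relation.ReflTransGen.refl⟩
    · exact ⟨q, fun h => h Relation.ReflTransGen.refl⟩
  · intro U hU hUc hin
    by_cases h1 : p ∈ U
    · by_cases h2 : q ∈ U
      · refine Or.inr (Or.inr (Or.inl ⟨true, rfl, fun v hv hc => ?_⟩))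
        exact hv (closed_of_noIn hin h2 hc)
      · exact Or.inl ⟨h1, h2⟩
    · refine Or.inr (Or.inl ⟨false, rfl, fun v hv hc => ?_⟩)
      exact h1 (closed_of_noIn hin hv hc)

theorem st_odd_quot {k : ℕ} (hk : 3 ≤ k) (p q : V)
    (hd : ∀ U : Set V, U.Nonempty → Uᶜ.Nonempty → NoIn s t U → 2 * k ≤ dd s t U)
    (hub : ∀ v, Odd (dd s t (comp s t v)) → Rch s t p v ∨ Rch s t v q) :
    ∃ O : A → Bool, ∀ U : Set V, U.Nonempty → Uᶜ.Nonempty → Sh s t U → k ≤ inn s t O U := by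
  apply orient_of_quot
  have hne : ∀ U : Set (QV s t), U.Nonempty → (qm s t ⁻¹' U).Nonempty := fun U hU =>
    hU.preimage (qm_surj s t)
  refine st_odd (qm s t ∘ s) (qm s t ∘ t) hk (qm s t p) (qm s t q) ?_ ?_
  · intro U hU hUc hin
    rw [dd_comp]
    exact hd _ (hne U hU) (by rw [← Set.preimage_compl]; exact hne _ hUc) hin
  · intro x hx
    obtain ⟨v, rfl⟩ := qm_surj s t x
    rw [dd_comp, fiber] at hx
    rcases hub v hx with h | h
    · exact Or.inl (q_of_rch s t h)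
    · exact Or.inr (q_of_rch s t h)

end OS9e
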