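import Pool.Agent.Lib_MP_e457e7_g3.DefsG

/-!
# Trimming of hyperedges

`N e` is the set of possible tails of the arc `e` with head `h e`. If for every nonempty set `Y` at least
`K` arcs with head in `Y` have a possible tail outside `Y`, then tails can be chosen such that at least
`K` arcs enter every nonempty set.
-/

set_option autoImplicit false
set_option linter.unusedSectionVars false

namespace OS9e
open Finset Classical

variable {W : Type*} [Fintype W] [DecidableEq W] {E : Type*} [Fintype E]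

/-- all elements of `N` are in `Y` -/
def Ins (N : Finset (Option W)) (Y : Finset W) : Prop := ∀ q ∈ N, ∃ w ∈ Y, q = some w

/-- the arc with head `a` and possible tails `N` counts for `Y` -/
noncomputable def ind (a : W) (N : Finset (Option W)) (Y : Finset W) : ℕ :=
  if a ∈ Y ∧ ¬ Ins N Y then 1 else 0

theorem ins_inter {N : Finset (Option W)} {Y Z : Finset W} :
    Ins N (Y ∩ Z) ↔ Ins N Y ∧ Ins N Z := by
  constructor
  · intro h
    refine ⟨fun q hq => ?_, fun q hq => ?_⟩
    · obtain ⟨w, hw, rfl⟩ := h q hq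
      exact ⟨w, (mem_inter.1 hw).1, rfl⟩
    · obtain ⟨w, hw, rfl⟩ := h q hq
      exact ⟨w, (mem_inter.1 hw).2, rfl⟩
  · rintro ⟨h1, h2⟩ q hq
    obtain ⟨w, hw, rfl⟩ := h1 q hq
    obtain ⟨w', hw', he⟩ := h2 _ hq
    rw [Option.some.injEq] at he
    subst he
    exact ⟨w, mem_inter.2 ⟨hw, hw'⟩, rfl⟩

theorem ins_mono {N : Finset (Option W)} {Y Z : Finset W} (h : Y ⊆ Z) (hY : Ins N Y) : Ins N Z := by
  intro q hq
  obtain ⟨w, hw, rfl⟩ := hY q hq
  exact ⟨w, h hw, rfl⟩

theorem ind_submod (a : W) (N : Finset (Option W)) (Y Z : Finset W) :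
    ind a N (Y ∩ Z) + ind a N (Y ∪ Z) ≤ ind a N Y + ind a N Z := by
  unfold ind
  have h1 : Ins N Y → Ins N (Y ∪ Z) := ins_mono subset_union_left
  have h2 : Ins N Z → Ins N (Y ∪ Z) := ins_mono subset_union_right
  simp only [ins_inter, mem_inter, mem_union]
  by_cases a1 : a ∈ Y <;> by_cases a2 : a ∈ Z <;> by_cases p1 : Ins N Y <;>
    by_cases p2 : Ins N Z <;> by_cases p3 : Ins N (Y ∪ Z) <;> simp_all

theorem trim_aux (K : ℕ) (h : E → W) (n : ℕ) : ∀ N : E → Finset (Option W),
    ∑ e, #(N e) = n → (∀ e, (N e).Nonempty) →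
    (∀ Y : Finset W, Y.Nonempty → K ≤ ∑ e, ind (h e) (N e) Y) →
    ∃ t : E → Option W, (∀ e, t e ∈ N e) ∧
      ∀ Y : Finset W, Y.Nonempty → K ≤ ∑ e, ind (h e) {t e} Y := by
  induction n using Nat.strong_induction_on with
  | _ n IH =>
  intro N hn hN hK
  by_cases hall : ∀ e, #(N e) = 1
  · choose t ht using fun e => card_eq_one.1 (hall e)
    refine ⟨t, fun e => by rw [ht e]; exact mem_singleton_self _, fun Y hY => ?_⟩
    have := hK Y hY
    simpa only [ht] using this
  push Not at hall
  obtain ⟨e0, he0⟩ := hall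
  have h1 : 1 < #(N e0) := by
    have := (hN e0).card_pos
    omega
  obtain ⟨q, hq, q', hq', hqq⟩ := one_lt_card.1 h1
  -- the two possibilities of deleting one element
  have step : ∀ p ∈ N e0, (∀ Y : Finset W, Y.Nonempty →
      K ≤ ∑ e, ind (h e) (Function.update N e0 ((N e0).erase p) e) Y) →
      ∃ t : E → Option W, (∀ e, t e ∈ N e) ∧
        ∀ Y : Finset W, Y.Nonempty → K ≤ ∑ e, ind (h e) {t e} Y := by
    intro p hp hKp
    have hlt : ∑ e, #(Function.update N e0 ((N e0).erase p) e) < n := by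
      rw [← hn]
      refine sum_lt_sum (fun e _ => ?_) ⟨e0, mem_univ _, ?_⟩
      · by_cases he : e = e0
        · subst he
          rw [Function.update_self]
          exact card_le_card (erase_subset _ _)
        · rw [Function.update_of_ne he]
      · rw [Function.update_self]
        exact card_lt_card (erase_ssubset hp)
    obtain ⟨t, ht, ht2⟩ := IH _ hlt _ rfl (by
      intro e
      by_cases he : e = e0
      · subst he
        rw [Function.update_self, ← card_pos, card_erase_of_mem hp]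
        omega
      · rw [Function.update_of_ne he]
        exact hN e) hKp
    refine ⟨t, fun e => ?_, ht2⟩
    have := ht e
    by_cases he : e = e0
    · subst he
      rw [Function.update_self] at this
      exact mem_of_mem_erase this
    · rwa [Function.update_of_ne he] at this
  by_cases c1 : ∀ Y : Finset W, Y.Nonempty →
      K ≤ ∑ e, ind (h e) (Function.update N e0 ((N e0).erase q) e) Y
  · exact step q hq c1
  by_cases c2 : ∀ Y : Finset W, Y.Nonempty →
      K ≤ ∑ e, ind (h e) (Function.update N e0 ((N e0).erase q') e) Y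
  · exact step q' hq' c2
  exfalso
  push Not at c1 c2
  obtain ⟨Y1, hY1, hf1⟩ := c1
  obtain ⟨Y2, hY2, hf2⟩ := c2
  have key : ∀ p ∈ N e0, ∀ Y : Finset W, Y.Nonempty →
      ∑ e, ind (h e) (Function.update N e0 ((N e0).erase p) e) Y < K →
      h e0 ∈ Y ∧ ¬ Ins (N e0) Y ∧ Ins ((N e0).erase p) Y := by
    intro p hp Y hY hf
    have hlt := lt_of_lt_of_le hf (hK Y hY)
    obtain ⟨e, -, he⟩ := exists_lt_of_sum_lt hlt
    have hee : e = e0 := by
      by_contra hne
      rw [Function.update_of_ne hne] at he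
      exact absurd he (lt_irrefl _)
    subst hee
    rw [Function.update_self] at he
    unfold ind at he
    by_cases a1 : h e ∈ Y ∧ ¬ Ins (N e) Y
    · refine ⟨a1.1, a1.2, ?_⟩
      by_contra a2
      rw [if_pos a1, if_pos ⟨a1.1, a2⟩] at he
      exact absurd he (lt_irrefl _)
    · rw [if_neg a1] at he
      exact absurd he (Nat.not_lt_zero _)
  obtain ⟨a1, b1, d1⟩ := key q hq Y1 hY1 hf1
  obtain ⟨a2, b2, d2⟩ := key q' hq' Y2 hY2 hf2
  have hun : Ins (N e0) (Y1 ∪ Y2) := by
    intro x hx
    by_cases hxq : x = q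
    · subst hxq
      obtain ⟨w, hw, h⟩ := d2 x (mem_erase.2 ⟨hqq, hx⟩)
      exact ⟨w, mem_union_right _ hw, h⟩
    · obtain ⟨w, hw, h⟩ := d1 x (mem_erase.2 ⟨hxq, hx⟩)
      exact ⟨w, mem_union_left _ hw, h⟩
  have hsum : ∑ e, (ind (h e) (N e) (Y1 ∩ Y2) + ind (h e) (N e) (Y1 ∪ Y2)) ≤
      ∑ e, (ind (h e) (Function.update N e0 ((N e0).erase q) e) Y1 +
        ind (h e) (Function.update N e0 ((N e0).erase q') e) Y2 + if e = e0 then 1 else 0) := by
    refine sum_le_sum fun e _ => ?_
    by_cases he : e = e0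
    · subst he
      rw [Function.update_self, Function.update_self, if_pos rfl]
      have : ind (h e) (N e) (Y1 ∪ Y2) = 0 := by
        unfold ind
        rw [if_neg]
        exact fun hh => hh.2 hun
      rw [this]
      have : ind (h e) (N e) (Y1 ∩ Y2) ≤ 1 := by
        unfold ind
        split_ifs <;> omega
      omega
    · rw [Function.update_of_ne he, Function.update_of_ne he, if_neg he]
      exact ind_submod _ _ _ _
  rw [sum_add_distrib, sum_add_distrib, sum_add_distrib, sum_ite_eq' univ e0, if_pos (mem_univ _)]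
    at hsum
  have g1 := hK (Y1 ∩ Y2) ⟨h e0, mem_inter.2 ⟨a1, a2⟩⟩
  have g2 := hK (Y1 ∪ Y2) ⟨h e0, mem_union_left _ a1⟩
  omega

theorem trim (K : ℕ) (h : E → W) (N : E → Finset (Option W)) (hN : ∀ e, (N e).Nonempty)
    (hK : ∀ Y : Finset W, Y.Nonempty → K ≤ ∑ e, ind (h e) (N e) Y) :
    ∃ t : E → Option W, (∀ e, t e ∈ N e) ∧
      ∀ Y : Finset W, Y.Nonempty → K ≤ G3.rho h t univ Y := by
  obtain ⟨t, ht, ht2⟩ := trim_aux K h _ N rfl hN hK
  refine ⟨t, ht, fun Y hY => ?_⟩
  have := ht2 Y hY
  unfold G3.rho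
  rw [card_filter]
  refine this.trans (sum_le_sum fun e _ => ?_)
  unfold ind Ins
  by_cases h1 : h e ∈ Y ∧ ∀ w ∈ Y, t e ≠ some w
  · rw [if_pos h1]
    split_ifs <;> omega
  · rw [if_neg, if_neg]
    · exact h1
    · rintro ⟨h2, h3⟩
      apply h1
      refine ⟨h2, fun w hw hte => h3 ?_⟩
      intro q hq
      rw [mem_singleton] at hq
      exact ⟨w, hw, by rw [hq, hte]⟩

end OS9e
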